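import Pool.Agent.Helper31.FM.Ser

set_option autoImplicit false

/-!
FM-D1a ContourSimple. Residues at simple poles.

PROOF. `1 / ∏ (z - θ_i) = ∑_i 1 / ((∏_(j≠i) (θ_i - θ_j)) (z - θ_i))` for `z` on the circle (partial fractions: the polynomial identity
`∑_i ∏_(j ≠ i) (X - θ_j)/(θ_i - θ_j) = 1`, e.g. `Lagrange.sum_basis`), so the integrand is `∑_i g(z) / (fp_i (z - θ_i))`, and Cauchy's formula
(`DiffContOnCl.circleIntegral_sub_inv_smul` or `Complex.circleIntegral_sub_inv_smul_of_differentiable_on_off_countable`) for each term. `0 < ρ` as `n > 0`.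
-/

open Polynomial Complex

namespace Pool.Agent.Helper31.FM

theorem contour_simple {n : ℕ} (hn : 0 < n) (a : ℤ) (ha : a ≠ 0) (θ : Fin n → ℂ) (hθ : Function.Injective θ)
    (ρ : ℝ) (h : ∀ i, ‖θ i‖ < ρ) (g : ℂ → ℂ) (hg : DiffContOnCl ℂ g (Metric.ball 0 ρ)) :
    (∮ z in C(0, ρ), g z / (fC a θ).eval z) = 2 * Real.pi * I * ∑ i, g (θ i) / fp a θ i := by
  sorry

end Pool.Agent.Helper31.FM
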