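import Pool.Agent.Helper31.FM.Defs

set_option autoImplicit false

/-!
FM-C0 PatEx. `fp_ne`, `Gam` exists, every large point has a pattern.

PROOF. `fp ≠ 0`: `a ≠ 0`, `θ` injective. `γ`: square roots exist in `ℂ` (`Complex.cpow`, `IsSquare`, or
`IsAlgClosed.exists_pow_nat_eq`). `pat_exists`: `ρ` with `ρ^2 = x`; `hs (θ/x)^2 = 1 - θ/x` (`hs_sq`, `Complex.cpow_nat_inv_pow`
or `← Complex.cpow_nat_mul`), so `(γ_i ρ hs)^2 = (l_i u)^2`: equal up to sign.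
`hs_near`: for `‖t‖ ≤ 1/2`: `Re hs t > 0` and `hs t - 1 = -t / (hs t + 1)`, `‖hs t + 1‖ ≥ 1`.
-/

open Polynomial Matrix

namespace Pool.Agent.Helper31.FM

theorem hs_sq (t : ℂ) : hs t ^ 2 = 1 - t := by
  sorry

theorem hs_near (t : ℂ) (ht : ‖t‖ ≤ 1 / 2) : ‖hs t - 1‖ ≤ ‖t‖ ∧ ‖hs t‖ ≤ 2 ∧ hs t ≠ 0 := by
  sorry

theorem fp_ne {n : ℕ} {a : Fin (n + 1) → ℤ} {θ : Fin n → ℂ} (h : Roots a θ) (i : Fin n) :
    fp (a (Fin.last n)) θ i ≠ 0 := by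
  sorry

theorem gam_exists {n : ℕ} (a : Fin (n + 1) → ℤ) (θ α : Fin n → ℂ) : ∃ γ, Gam a θ α γ := by
  sorry

theorem pat_exists {n : ℕ} {a : Fin (n + 1) → ℤ} {θ α : Fin n → ℂ} {l : Fin n → (Fin n → ℤ) → ℂ}
    {γ : Fin n → ℂ} (hγ : Gam a θ α γ) {x : ℤ} {u : Fin n → ℤ} (hx : x ≠ 0)
    (h : Pt a θ α l x u) : ∃ e, Pat θ l γ e x u := by
  sorry

/-- roots are at most `1 + H / |a_n|` -/
theorem root_bound {n : ℕ} {a : Fin (n + 1) → ℤ} {θ : Fin n → ℂ} (h : Roots a θ) (H : ℝ)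
    (hH : ∀ i, |((a i : ℤ) : ℝ)| ≤ H) (i : Fin n) : ‖θ i‖ ≤ 1 + H / |((a (Fin.last n) : ℤ) : ℝ)| := by
  sorry

end Pool.Agent.Helper31.FM
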