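import Pool.Agent.Helper31.FM.Decomp
import Pool.Agent.Helper31.FM.ContourSimple
import Pool.Agent.Helper31.FM.PatEx

set_option autoImplicit false

/-!
FM-D1 Contour. `∑ hs(θ_i/x0) lam_i(X^j)` is very small.

PROOFS. `contour_lam`: `P = Dk S + f^k P1` (`decomp2`, `s = 1/x0`); on the circle `|z| = ρ = |x0|/2` (where
`|z/x0| ≤ 1/2`, `f ≠ 0` as `ρ > ‖θ_i‖`): `Dk S (z) hs(z/x0)^(2k+1) / f^(k+1)` is the derivative of `S hs(z/x0)^(2k+3) / f^k`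
(`hs' = - 1/(2 hs)`, so `(hs(z/x0)^(2k+3))' = -(k+3/2) s hs(z/x0)^(2k+1)`, `hs^2 = 1 - z/x0`), integral zero
(`circleIntegral.integral_eq_zero_of_hasDerivAt` or similar); `P1 hs^(2k+1) / f`: `contour_simple`, `hs(θ_i/x0)^(2k+1) = hs (1 - sθ_i)^k`,
and `lam_i P = P1(θ_i)(1-sθ_i)^k/fp_i` (`lam_Dk`, `lam_fk`). `lam_small`: on the circle `|z^j| ≤ |x0|^j`, `‖hs‖^(2k+1) ≤ (3/2)^(k+1/2) ≤ 2^(k+1)`,
`|f| ≥ |a| (ρ - R)^n ≥ (|x0|/4)^n`; `norm_circleIntegral_le` (`circleIntegral.norm_integral_le_of_norm_le_const`).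
-/

open Polynomial Complex

namespace Pool.Agent.Helper31.FM

theorem contour_lam {n : ℕ} (hn : 0 < n) (a : ℤ) (ha : a ≠ 0) (θ : Fin n → ℂ)
    (hθ : Function.Injective θ) (x0 : ℝ) (hx : x0 ≠ 0) (h : ∀ i, 4 * ‖θ i‖ ≤ |x0|) (k : ℕ)
    (P : ℂ[X]) (hP : P.degree < (n : WithBot ℕ)) :
    (∮ z in C(0, |x0| / 2), P.eval z * hs (z / x0) ^ (2 * k + 1) / (fC a θ).eval z ^ (k + 1)) =
      2 * Real.pi * I * ∑ i, hs (θ i / x0) * lam a θ (1 / x0) k i P := by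
  sorry

theorem lam_small {n : ℕ} (hn : 0 < n) (a : ℤ) (ha : a ≠ 0) (θ : Fin n → ℂ)
    (hθ : Function.Injective θ) (x0 : ℝ) (hx : x0 ≠ 0) (h : ∀ i, 4 * ‖θ i‖ ≤ |x0|) (k j : ℕ)
    (hj : j < n) :
    ‖∑ i, hs (θ i / x0) * lam a θ (1 / x0) k i (X ^ j)‖ ≤
      |x0| ^ (j + 1) * 2 ^ (k + 1) * (4 / |x0|) ^ (n * (k + 1)) := by
  sorry

end Pool.Agent.Helper31.FM
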