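import Pool.Agent.Helper31.FM.Defs

set_option autoImplicit false

/-!
FM-C3 CountGap. A set of integers in which any `n` elements satisfy `min^2 ≤ c max` has few elements between `X0` and `Z`.

PROOF. Let `X0 ≥ K := max 3 (c^2+1)^2`, so that `Y ≥ X0` gives `c Y^(3/2) < Y^2`. The elements with `X_j ≤ |x| ≤ X_(j+1) = X_j^(3/2)`,
`X_j = X0^((3/2)^j)`, are at most `n - 1` (otherwise `n` of them with `Y = X_j`, `Z = X_j^(3/2)`: `Y^2 ≤ c Y^(3/2)`). The intervals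
`j = 0, 1, ..., J`, `(3/2)^(J+1) ≥ log Z / log X0`, cover `[X0, Z]`; `J + 1 ≤ 1 + log(log Z / log X0)/log(3/2)` and `1/log(3/2) ≤ 3`.
-/

namespace Pool.Agent.Helper31.FM

theorem count_gap (n : ℕ) (c : ℝ) (hc : 1 ≤ c) : ∃ K : ℝ, 3 ≤ K ∧ ∀ (T : Finset ℤ) (X0 Z : ℝ),
    K ≤ X0 → X0 ≤ Z → (∀ x ∈ T, X0 ≤ |(x : ℝ)| ∧ |(x : ℝ)| ≤ Z) → GapSet n c T X0 →
    (T.card : ℝ) ≤ n * (2 + 3 * Real.log (Real.log Z / Real.log X0)) := by
  sorry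

end Pool.Agent.Helper31.FM
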