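import Pool.Agent.Helper31.FM.LamDk

set_option autoImplicit false

/-!
FM-D3 Decomp. Degrees, the two decompositions, independence of the `lam_i (X^j)`.

PROOFS. `dk_deg`: coefficient of degree `n + deg S` of `Dk k s f S` is `s a (k n - k - 3/2 - deg S) lc(S)` (`f` has degree `n`, leading
coefficient `a`), not zero since `k n - k - 3/2 - deg S` is not an integer; so for `S ≠ 0`, `degree (Dk S) = n + degree S`.
Linear maps on `Polynomial.degreeLT ℂ m` (dimension `m`). `decomp1`: `(S, Q) ↦ Dk S + Q`, `degreeLT (n k) × degreeLT n → degreeLT (n (k+1))`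
is injective (degree), hence surjective. `decomp2`: `(S, P1) ↦ Dk S + f^k P1` is injective: apply `lam_i`: `P1(θ_i) = 0` for all `i`, so `P1 = 0`,
then `Dk S = 0`, `S = 0`. `lam_indep`: `Λ(P) = ∑ v_i lam_i P` vanishes on `degreeLT n` (linear combinations of `X^j`) and on `Dk S`, hence on
`degreeLT (n(k+1))`; on `f^k P1` it is `∑ v_i P1(θ_i) (1 - sθ_i)^k / fp_i`; Lagrange interpolation gives `v_i = 0`.
-/

open Polynomial

namespace Pool.Agent.Helper31.FM

private theorem fC_monic {n : ℕ} (θ : Fin n → ℂ) : (∏ i, (X - C (θ i)) : ℂ[X]).Monic :=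
  monic_prod_of_monic _ _ fun i _ => monic_X_sub_C _

private theorem prod_natDegree {n : ℕ} (θ : Fin n → ℂ) :
    (∏ i, (X - C (θ i)) : ℂ[X]).natDegree = n := by
  rw [natDegree_prod_of_monic _ _ fun i _ => monic_X_sub_C _]
  simp

private theorem fC_natDegree {n : ℕ} (a : ℤ) (θ : Fin n → ℂ) : (fC a θ).natDegree ≤ n := by
  unfold fC
  exact (natDegree_C_mul_le _ _).trans (prod_natDegree θ).le

private theorem fC_coeff {n : ℕ} (a : ℤ) (θ : Fin n → ℂ) : (fC a θ).coeff n = a := by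
  unfold fC
  rw [coeff_C_mul]
  have h := (fC_monic θ).coeff_natDegree
  rw [prod_natDegree] at h
  rw [h, mul_one]

private theorem e_coeff (s : ℂ) (p : ℂ[X]) (j : ℕ) :
    ((1 - C s * X) * derivative p).coeff j = p.coeff (j + 1) * (j + 1) - s * (p.coeff j * j) := by
  have h : (X * derivative p).coeff j = p.coeff j * j := by
    cases j with
    | zero => simp
    | succ j =>
      rw [coeff_X_mul, coeff_derivative]
      push_cast
      ring
  have e : (1 - C s * X) * derivative p = derivative p - C s * (X * derivative p) := by ring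
  rw [e, coeff_sub, coeff_C_mul, h, coeff_derivative]

private theorem e_natDegree (s : ℂ) (p : ℂ[X]) (m : ℕ) (hp : p.natDegree ≤ m) :
    ((1 - C s * X) * derivative p).natDegree ≤ m := by
  rw [natDegree_le_iff_coeff_eq_zero]
  intro j hj
  rw [e_coeff, coeff_eq_zero_of_natDegree_lt (by omega), coeff_eq_zero_of_natDegree_lt (by omega)]
  ring

private theorem e_top (s : ℂ) (p : ℂ[X]) (m : ℕ) (hp : p.natDegree ≤ m) :
    ((1 - C s * X) * derivative p).coeff m = -(s * (p.coeff m * m)) := by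
  rw [e_coeff, coeff_eq_zero_of_natDegree_lt (show p.natDegree < m + 1 by omega)]
  ring

private theorem Dk_eq (k : ℕ) (s : ℂ) (f S : ℂ[X]) :
    Dk k s f S = f * ((1 - C s * X) * derivative S - C (((k : ℂ) + 3 / 2) * s) * S) -
      (C (k : ℂ) * ((1 - C s * X) * derivative f)) * S := by
  unfold Dk
  ring

private theorem Dk_add (k : ℕ) (s : ℂ) (f S T : ℂ[X]) :
    Dk k s f (S + T) = Dk k s f S + Dk k s f T := by
  unfold Dk
  rw [derivative_add]
  ring

private theorem Dk_smul (k : ℕ) (s : ℂ) (f S : ℂ[X]) (c : ℂ) :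
    Dk k s f (C c * S) = C c * Dk k s f S := by
  unfold Dk
  rw [derivative_C_mul]
  ring

private theorem half_ne (k n m : ℕ) : (k : ℂ) * n - m - k - 3 / 2 ≠ 0 := by
  intro h
  have h1 : ((2 * ((k : ℤ) * n - m - k) : ℤ) : ℂ) = ((3 : ℤ) : ℂ) := by
    push_cast
    linear_combination 2 * h
  have h2 : 2 * ((k : ℤ) * n - m - k) = 3 := by exact_mod_cast h1
  omega

/-- the top coefficient -/
private theorem Dk_top {n : ℕ} (a : ℤ) (θ : Fin n → ℂ) (s : ℂ) (k : ℕ) (S : ℂ[X])
    (m : ℕ) (hm : S.natDegree ≤ m) : (Dk k s (fC a θ) S).natDegree ≤ n + m ∧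
      (Dk k s (fC a θ) S).coeff (n + m) =
        (a : ℂ) * s * ((k : ℂ) * n - m - k - 3 / 2) * S.coeff m := by
  have hf := fC_natDegree a θ
  have hU : ((1 - C s * X) * derivative S - C (((k : ℂ) + 3 / 2) * s) * S).natDegree ≤ m :=
    (natDegree_sub_le _ _).trans (max_le (e_natDegree s S m hm)
      ((natDegree_C_mul_le _ _).trans hm))
  have hW : (C (k : ℂ) * ((1 - C s * X) * derivative (fC a θ))).natDegree ≤ n :=
    (natDegree_C_mul_le _ _).trans (e_natDegree s _ n hf)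
  rw [Dk_eq]
  constructor
  · refine (natDegree_sub_le _ _).trans (max_le ?_ ?_)
    · exact natDegree_mul_le.trans (by omega)
    · exact natDegree_mul_le.trans (by omega)
  · rw [coeff_sub, coeff_mul_add_eq_of_natDegree_le hf hU, coeff_mul_add_eq_of_natDegree_le hW hm, coeff_sub,
      coeff_C_mul, coeff_C_mul, e_top s S m hm, e_top s _ n hf, fC_coeff]
    ring

private theorem Dk_degree_lt {n : ℕ} (a : ℤ) (θ : Fin n → ℂ) (s : ℂ) (k : ℕ) (S : ℂ[X])
    (m : ℕ) (hn : 0 < n) (hS : S.degree < (m : WithBot ℕ)) :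
    (Dk k s (fC a θ) S).degree < ((n + m : ℕ) : WithBot ℕ) := by
  rcases Nat.eq_zero_or_pos m with rfl | hm
  · have h0 : S = 0 := by
      rw [← degree_eq_bot]
      exact Nat.WithBot.lt_zero_iff.1 (by simpa using hS)
    rw [h0]
    unfold Dk
    simp
  · have h1 : S.natDegree ≤ m - 1 := by
      rcases eq_or_ne S 0 with h | h
      · rw [h]; simp
      · have := (natDegree_lt_iff_degree_lt h).2 hS
        omega
    refine lt_of_le_of_lt (natDegree_le_iff_degree_le.1 (Dk_top a θ s k S (m - 1) h1).1) ?_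
    exact_mod_cast (by omega : n + (m - 1) < n + m)

private theorem decomp1' {n : ℕ} (a : ℤ) (ha : a ≠ 0) (θ : Fin n → ℂ) (s : ℂ)
    (hs : s ≠ 0) (k : ℕ) (N : ℕ) : ∀ P : ℂ[X], P.degree < ((n + N : ℕ) : WithBot ℕ) →
    ∃ S Q : ℂ[X], Q.degree < (n : WithBot ℕ) ∧ P = Dk k s (fC a θ) S + Q := by
  induction N with
  | zero =>
    intro P hP
    refine ⟨0, P, hP, ?_⟩
    unfold Dk
    simp
  | succ m ih =>
    intro P hP
    obtain ⟨h1, h2⟩ := Dk_top a θ s k (X ^ m) m (natDegree_X_pow_le m)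
    rw [coeff_X_pow_self, mul_one] at h2
    have hτ : (a : ℂ) * s * ((k : ℂ) * n - m - k - 3 / 2) ≠ 0 :=
      mul_ne_zero (mul_ne_zero (by exact_mod_cast ha) hs) (half_ne k n m)
    obtain ⟨τ, hτe⟩ : ∃ τ, τ = (a : ℂ) * s * ((k : ℂ) * n - m - k - 3 / 2) := ⟨_, rfl⟩
    rw [← hτe] at h2 hτ
    obtain ⟨S, Q, hQ, he⟩ := ih (P - C (P.coeff (n + m) / τ) * Dk k s (fC a θ) (X ^ m)) (by
      rw [degree_lt_iff_coeff_zero]
      intro j hj
      rw [coeff_sub, coeff_C_mul]
      rcases Nat.eq_or_lt_of_le hj with h3 | h3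
      · rw [← h3, h2, div_mul_cancel₀ _ hτ, sub_self]
      · rw [coeff_eq_zero_of_natDegree_lt (lt_of_le_of_lt h1 h3),
          (degree_lt_iff_coeff_zero _ _).1 hP j (by omega)]
        ring)
    refine ⟨S + C (P.coeff (n + m) / τ) * X ^ m, Q, hQ, ?_⟩
    rw [Dk_add, Dk_smul]
    linear_combination he

private noncomputable def DkL (k : ℕ) (s : ℂ) (f : ℂ[X]) : ℂ[X] →ₗ[ℂ] ℂ[X] where
  toFun := Dk k s f
  map_add' := Dk_add k s f
  map_smul' c S := by
    rw [RingHom.id_apply, smul_eq_C_mul, smul_eq_C_mul]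
    exact Dk_smul k s f S c

private theorem fp_ne {n : ℕ} (a : ℤ) (ha : a ≠ 0) (θ : Fin n → ℂ) (hθ : Function.Injective θ)
    (i : Fin n) : fp a θ i ≠ 0 := by
  unfold fp
  refine mul_ne_zero (by exact_mod_cast ha) (Finset.prod_ne_zero_iff.2 fun j hj => ?_)
  exact sub_ne_zero.2 fun h => (Finset.ne_of_mem_erase hj) (hθ h).symm

theorem dk_deg {n : ℕ} (hn : 0 < n) (a : ℤ) (ha : a ≠ 0) (θ : Fin n → ℂ) (s : ℂ) (hs : s ≠ 0) (k : ℕ)
    (S : ℂ[X]) (hS : S ≠ 0) : (Dk k s (fC a θ) S).degree = ((n + S.natDegree : ℕ) : WithBot ℕ) := by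
  obtain ⟨h1, h2⟩ := Dk_top a θ s k S S.natDegree le_rfl
  refine degree_eq_of_le_of_coeff_ne_zero (natDegree_le_iff_degree_le.1 h1) ?_
  rw [h2]
  refine mul_ne_zero (mul_ne_zero (mul_ne_zero (by exact_mod_cast ha) hs)
    (half_ne k n S.natDegree)) ?_
  rw [coeff_natDegree]
  exact leadingCoeff_ne_zero.2 hS

theorem decomp1 {n : ℕ} (hn : 0 < n) (a : ℤ) (ha : a ≠ 0) (θ : Fin n → ℂ) (s : ℂ) (hs : s ≠ 0)
    (k : ℕ) (P : ℂ[X]) (hP : P.degree < ((n * (k + 1) : ℕ) : WithBot ℕ)) :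
    ∃ S Q : ℂ[X], Q.degree < (n : WithBot ℕ) ∧ P = Dk k s (fC a θ) S + Q := by
  refine decomp1' a ha θ s hs k (n * k) P ?_
  rwa [Nat.mul_succ, Nat.add_comm] at hP

theorem decomp2 {n : ℕ} (hn : 0 < n) (a : ℤ) (ha : a ≠ 0) (θ : Fin n → ℂ)
    (hθ : Function.Injective θ) (s : ℂ) (hs : s ≠ 0) (h1 : ∀ i, 1 - s * θ i ≠ 0)
    (k : ℕ) (P : ℂ[X]) (hP : P.degree < ((n * (k + 1) : ℕ) : WithBot ℕ)) :
    ∃ S P1 : ℂ[X], P1.degree < (n : WithBot ℕ) ∧ P = Dk k s (fC a θ) S + fC a θ ^ k * P1 := by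
  classical
  have hfk : (fC a θ ^ k).natDegree ≤ n * k := by
    refine natDegree_pow_le.trans ?_
    rw [Nat.mul_comm]
    exact Nat.mul_le_mul_right _ (fC_natDegree a θ)
  obtain ⟨Ψ, hΨ⟩ : ∃ Ψ : (degreeLT ℂ (n * k) × degreeLT ℂ n) →ₗ[ℂ] ℂ[X],
      ∀ p, Ψ p = Dk k s (fC a θ) p.1 + fC a θ ^ k * p.2 :=
    ⟨((DkL k s (fC a θ)).comp (degreeLT ℂ (n * k)).subtype).coprod
      ((LinearMap.mulLeft ℂ (fC a θ ^ k)).comp (degreeLT ℂ n).subtype), fun p => rfl⟩
  have hmem : ∀ p, Ψ p ∈ degreeLT ℂ (n * (k + 1)) := by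
    intro p
    rw [hΨ, mem_degreeLT]
    refine lt_of_le_of_lt (degree_add_le _ _) (max_lt ?_ ?_)
    · have := Dk_degree_lt a θ s k (p.1 : ℂ[X]) (n * k) hn (mem_degreeLT.1 p.1.2)
      rwa [Nat.mul_succ, Nat.add_comm (n * k)]
    · have h2 := mem_degreeLT.1 p.2.2
      rcases eq_or_ne (p.2 : ℂ[X]) 0 with h | h
      · rw [h, mul_zero, degree_zero]
        exact WithBot.bot_lt_coe _
      · have h3 := (natDegree_lt_iff_degree_lt h).2 h2
        refine lt_of_le_of_lt degree_le_natDegree ?_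
        have h4 : (fC a θ ^ k * (p.2 : ℂ[X])).natDegree ≤ n * k + (p.2 : ℂ[X]).natDegree :=
          natDegree_mul_le.trans (by omega)
        rw [Nat.mul_succ]
        exact_mod_cast (by omega : (fC a θ ^ k * (p.2 : ℂ[X])).natDegree < n * k + n)
  have hinj : Function.Injective (Ψ.codRestrict (degreeLT ℂ (n * (k + 1))) hmem) := by
    rw [← LinearMap.ker_eq_bot, LinearMap.ker_eq_bot']
    rintro ⟨S, P1⟩ h0
    have h2 : Dk k s (fC a θ) (S : ℂ[X]) + fC a θ ^ k * (P1 : ℂ[X]) = 0 := by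
      have := congrArg Subtype.val h0
      rw [LinearMap.codRestrict_apply, hΨ] at this
      exact this
    have h3 : (P1 : ℂ[X]) = 0 := by
      refine eq_zero_of_degree_lt_of_eval_index_eq_zero Finset.univ hθ.injOn ?_ ?_
      · rw [Finset.card_univ, Fintype.card_fin]
        exact mem_degreeLT.1 P1.2
      · intro i _
        have h4 := lam_add a θ s k i (Dk k s (fC a θ) (S : ℂ[X])) (fC a θ ^ k * (P1 : ℂ[X]))
        rw [h2, lam_Dk a ha θ hθ s k i (h1 i), lam_fk a ha θ hθ, zero_add] at h4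
        have h5 : lam a θ s k i 0 = 0 := by
          have := lam_smul a θ s k i 0 0
          rw [C_0, zero_mul, zero_mul] at this
          exact this
        rw [h5] at h4
        have h6 := div_eq_zero_iff.1 h4.symm
        rcases h6 with h6 | h6
        · rcases mul_eq_zero.1 h6 with h7 | h7
          · exact h7
          · exact absurd h7 (pow_ne_zero _ (h1 i))
        · exact absurd h6 (fp_ne a ha θ hθ i)
    have h4 : (S : ℂ[X]) = 0 := by
      by_contra hS
      rw [h3, mul_zero, add_zero] at h2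
      have h5 := dk_deg hn a ha θ s hs k (S : ℂ[X]) hS
      rw [h2, degree_zero] at h5
      exact absurd h5.symm (WithBot.coe_ne_bot)
    exact Prod.ext (Subtype.ext h4) (Subtype.ext h3)
  have hfin : ∀ m, Module.finrank ℂ (degreeLT ℂ m) = m := fun m => by
    rw [(degreeLTEquiv ℂ m).finrank_eq, Module.finrank_fin_fun]
  have hfd : ∀ m, FiniteDimensional ℂ (degreeLT ℂ m) := fun m =>
    (degreeLTEquiv ℂ m).symm.finiteDimensional
  have := hfd (n * k)
  have := hfd n
  have := hfd (n * (k + 1))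
  have hsurj : Function.Surjective (Ψ.codRestrict (degreeLT ℂ (n * (k + 1))) hmem) := by
    rw [← LinearMap.injective_iff_surjective_of_finrank_eq_finrank]
    · exact hinj
    · rw [Module.finrank_prod, hfin, hfin, hfin, Nat.mul_succ]
  obtain ⟨⟨S, P1⟩, h2⟩ := hsurj ⟨P, mem_degreeLT.2 hP⟩
  refine ⟨S, P1, mem_degreeLT.1 P1.2, ?_⟩
  have := congrArg Subtype.val h2
  rw [LinearMap.codRestrict_apply, hΨ] at this
  exact this.symm

theorem lam_indep {n : ℕ} (hn : 0 < n) (a : ℤ) (ha : a ≠ 0) (θ : Fin n → ℂ)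
    (hθ : Function.Injective θ) (s : ℂ) (hs : s ≠ 0) (h1 : ∀ i, 1 - s * θ i ≠ 0)
    (k : ℕ) (v : Fin n → ℂ) (hv : ∀ j : ℕ, j < n → ∑ i, v i * lam a θ s k i (X ^ j) = 0) :
    v = 0 := by
  classical
  -- all polynomials of degree less than `n`
  have hlin : ∀ Q : ℂ[X], Q.degree < (n : WithBot ℕ) → ∑ i, v i * lam a θ s k i Q = 0 := by
    intro Q hQ
    have h2 : ∀ (t : Finset ℕ) (i : Fin n), lam a θ s k i (∑ j ∈ t, C (Q.coeff j) * X ^ j) =
        ∑ j ∈ t, Q.coeff j * lam a θ s k i (X ^ j) := by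
      intro t i
      induction t using Finset.induction_on with
      | empty =>
        have := lam_smul a θ s k i 0 0
        rw [C_0, zero_mul, zero_mul] at this
        rw [Finset.sum_empty, Finset.sum_empty, this]
      | insert j t hj ih =>
        rw [Finset.sum_insert hj, Finset.sum_insert hj, lam_add, lam_smul, ih]
    have h3 : Q = ∑ j ∈ Finset.range n, C (Q.coeff j) * X ^ j := by
      ext j
      rw [finsetSum_coeff]
      simp only [coeff_C_mul, coeff_X_pow, mul_ite, mul_one, mul_zero]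
      rw [Finset.sum_ite_eq]
      split_ifs with h
      · rfl
      · rw [Finset.mem_range, not_lt] at h
        exact (degree_lt_iff_coeff_zero _ _).1 hQ j h
    have h4 : ∀ i, lam a θ s k i Q = ∑ j ∈ Finset.range n, Q.coeff j * lam a θ s k i (X ^ j) := by
      intro i
      conv_lhs => rw [h3]
      exact h2 _ i
    simp_rw [h4, Finset.mul_sum]
    rw [Finset.sum_comm]
    refine Finset.sum_eq_zero fun j hj => ?_
    have h5 := hv j (Finset.mem_range.1 hj)
    calc ∑ i, v i * (Q.coeff j * lam a θ s k i (X ^ j))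
        = Q.coeff j * ∑ i, v i * lam a θ s k i (X ^ j) := by
          rw [Finset.mul_sum]
          exact Finset.sum_congr rfl fun i _ => by ring
      _ = 0 := by rw [h5, mul_zero]
  -- all polynomials
  have hall : ∀ P : ℂ[X], ∑ i, v i * lam a θ s k i P = 0 := by
    intro P
    obtain ⟨S, Q, hQ, he⟩ := decomp1' a ha θ s hs k (P.natDegree + 1) P (by
      refine lt_of_le_of_lt degree_le_natDegree ?_
      exact_mod_cast (by omega : P.natDegree < n + (P.natDegree + 1)))
    have h2 : ∀ i, lam a θ s k i P = lam a θ s k i Q := by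
      intro i
      conv_lhs => rw [he]
      rw [lam_add, lam_Dk a ha θ hθ s k i (h1 i), zero_add]
    simp_rw [h2]
    exact hlin Q hQ
  funext i
  have h2 := hall (fC a θ ^ k * ∏ j ∈ Finset.univ.erase i, (X - C (θ j)))
  have h3 : ∀ j, (∏ l ∈ Finset.univ.erase i, (X - C (θ l)) : ℂ[X]).eval (θ j) =
      ∏ l ∈ Finset.univ.erase i, (θ j - θ l) := by
    intro j
    rw [eval_prod]
    exact Finset.prod_congr rfl fun l _ => by simp
  rw [Finset.sum_eq_single i] at h2
  · rw [lam_fk a ha θ hθ, h3] at h2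
    have h4 : ∏ l ∈ Finset.univ.erase i, (θ i - θ l) ≠ 0 :=
      Finset.prod_ne_zero_iff.2 fun j hj =>
        sub_ne_zero.2 fun h => (Finset.ne_of_mem_erase hj) (hθ h).symm
    have h5 : (∏ l ∈ Finset.univ.erase i, (θ i - θ l)) * (1 - s * θ i) ^ k / fp a θ i ≠ 0 :=
      div_ne_zero (mul_ne_zero h4 (pow_ne_zero _ (h1 i))) (fp_ne a ha θ hθ i)
    exact (mul_eq_zero.1 h2).resolve_right h5
  · intro j _ hj
    rw [lam_fk a ha θ hθ, h3, Finset.prod_eq_zero (i := j)
      (Finset.mem_erase.2 ⟨hj, Finset.mem_univ j⟩) (sub_self _)]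
    simp
  · intro h
    exact absurd (Finset.mem_univ i) h

end Pool.Agent.Helper31.FM
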