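import Pool.Agent.Helper32.DZ.Defs

set_option autoImplicit false

/-!
Project FM (MP_d88658_nt, first moment): definitions. See /team-store/memo_FM_helper31.md

`hs t = sqrt (1 - t)` (principal). `fp a θ i` = the derivative of `a ∏ (z - θ_j)` at `θ_i`.
`Roots a θ`: the `θ_i` are the `n` distinct roots of `∑ a_i z^i`, and `a_n ≠ 0`.
`Frame a θ α l`: eigen coordinates `l_i` on `ℤ^n` with weights `α_i`.
`Pt`: `(x, u)` is a point of the frame. `Pat`: it is a point with the sign pattern `e` (relative to `γ_i`, `γ_i^2 = α_i / f'(θ_i)`).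
-/

open Polynomial Matrix

namespace Pool.Agent.Helper31.FM

/-- the principal square root of `1 - t` -/
noncomputable def hs (t : ℂ) : ℂ := (1 - t) ^ (1 / 2 : ℂ)

/-- the derivative of `a ∏ (z - θ_j)` at `θ_i` -/
noncomputable def fp {n : ℕ} (a : ℤ) (θ : Fin n → ℂ) (i : Fin n) : ℂ :=
  (a : ℂ) * ∏ j ∈ Finset.univ.erase i, (θ i - θ j)

/-- the distinct roots of `∑ a_i z^i` -/
structure Roots {n : ℕ} (a : Fin (n + 1) → ℤ) (θ : Fin n → ℂ) : Prop where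
  lc : a (Fin.last n) ≠ 0
  inj : Function.Injective θ
  fac : ∀ z : ℂ, ∑ i, (a i : ℂ) * z ^ (i : ℕ) = (a (Fin.last n) : ℂ) * ∏ i, (z - θ i)

/-- eigen coordinates of an integral pair attached to `f` -/
structure Frame {n : ℕ} (a : Fin (n + 1) → ℤ) (θ α : Fin n → ℂ)
    (l : Fin n → (Fin n → ℤ) → ℂ) : Prop where
  roots : Roots a θ
  ne : ∀ i, α i ≠ 0
  int : ∀ (Q : ℤ[X]) (N : ℕ), Q.natDegree ≤ N → ∀ u v : Fin n → ℤ, ∃ z : ℤ,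
    (a (Fin.last n) : ℂ) ^ N * ∑ i, aeval (θ i) Q * (l i u * l i v / α i) = z
  det : ∀ U : Fin n → Fin n → ℤ, (Matrix.of fun i k => l i (U k)).det = 0 ∨
    ∏ i, ‖α i‖ ≤ ‖(Matrix.of fun i k => l i (U k)).det‖ ^ 2

/-- `(x, u)` is a point of the frame -/
def Pt {n : ℕ} (a : Fin (n + 1) → ℤ) (θ α : Fin n → ℂ) (l : Fin n → (Fin n → ℤ) → ℂ)
    (x : ℤ) (u : Fin n → ℤ) : Prop :=
  ∀ i, l i u ^ 2 = α i * ((x : ℂ) - θ i) / fp (a (Fin.last n)) θ i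

/-- square roots of `α_i / f'(θ_i)` -/
def Gam {n : ℕ} (a : Fin (n + 1) → ℤ) (θ α γ : Fin n → ℂ) : Prop :=
  ∀ i, γ i ^ 2 = α i / fp (a (Fin.last n)) θ i

/-- `(x, u)` has the sign pattern `e` -/
def Pat {n : ℕ} (θ : Fin n → ℂ) (l : Fin n → (Fin n → ℤ) → ℂ) (γ : Fin n → ℂ)
    (e : Fin n → Bool) (x : ℤ) (u : Fin n → ℤ) : Prop :=
  ∃ ρ : ℂ, ρ ^ 2 = x ∧ ∀ i, l i u = (if e i then 1 else -1) * γ i * ρ * hs (θ i / x)

/-- the vector `u` belongs to the point `x` of the pencil `(A, B)`: `(A u)^t adj(X A - B) (A u) = ε (X - x)` -/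
def VecId {n : ℕ} (ε : ℤ) (A B : Matrix (Fin n) (Fin n) ℤ) (u : Fin n → ℤ) (x : ℤ) : Prop :=
  (fun i => (C ((A *ᵥ u) i) : ℤ[X])) ⬝ᵥ
    (((X : ℤ[X]) • A.map (C : ℤ → ℤ[X]) - B.map (C : ℤ → ℤ[X])).adjugate *ᵥ
      fun i => (C ((A *ᵥ u) i) : ℤ[X])) = C ε * (X - C x)

/-- `n` vectors with large mutual gaps: the counting hypothesis -/
def GapSet (n : ℕ) (c : ℝ) (T : Finset ℤ) (X0 : ℝ) : Prop :=
  ∀ A : Finset ℤ, A ⊆ T → A.card = n → ∀ Y Z : ℝ, X0 ≤ Y → (∀ x ∈ A, Y ≤ |(x : ℝ)|) →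
    (∀ x ∈ A, |(x : ℝ)| ≤ Z) → Y ^ 2 ≤ c * Z

end Pool.Agent.Helper31.FM
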