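import Pool.Agent.Helper31.FM.RedPow

set_option autoImplicit false

/-!
FM-C1 DetHs. `det (hs (s_k θ_i)) = V(s) V(θ) w` with `w` bounded above and below when all `s_k θ_i` are small.

PROOF. `hs t = ∑ c_m t^m` for `‖t‖ < 1`, `c_m = (-1)^m binom(1/2, m)` (`Complex.one_add_cpow_hasFPowerSeriesOnBall_zero`,
`a = 1/2`, argument `-t`), `|c_m| ≤ 1` and `c_m ≠ 0` (`Ring.choose`; or take any bound `|c_m| ≤ b` from the Cauchy estimates / summability at
`1/2` in the form `|c_m| ≤ b 2^m`, and only use `c_m ≠ 0` for `m < n`).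
REDUCTION: for `θ : Fin n → ℂ`, `‖θ_i‖ ≤ R`, there are `E : ℕ → Fin n → ℂ` with `θ_i^m = ∑_(j<n) E m j θ_i^j` for all `i`, `m`,
`E m j = δ` for `m < n`, and `‖E m j‖ R^j ≤ (1 + 2^n)^m R^m` (`red_pow` below: `∏ (z - θ_i)` is monic, the coefficient of `z^j` has norm
`≤ binom(n,j) R^(n-j)`; recursion `E (m+1) j = E m (j-1) + p_j E m (n-1)` with `z^n = ∑ p_j z^j` on the `θ_i`).
Let `E`, `F` be these for `θ`, `s`. Then `hs (s_k θ_i) = ∑_m c_m s_k^m θ_i^m = ∑_(j,l) θ_i^j W j l s_k^l`,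
`W j l = c_j δ_jl + ∑_(m ≥ n) c_m E m j F m l`, so the matrix is `vandermonde θ * W * (vandermonde s)^T`, `w = det W`.
`W' j l = R^j W j l / R^l` has the same determinant, and `|W' j l - c_j δ_jl| ≤ ∑_(m≥n) (1+2^n)^(2m) (RS)^(m-l) ≤ C' η` as `m ≥ n > l`.
For `η` small: `|det W' - ∏_(j<n) c_j| ≤ ½ |∏ c_j|` (continuity of `det`: choose `η` by continuity at the diagonal matrix, or a crude bound).
`n = 0` is trivial (`w = 1`). `R > 0`, `S > 0` are assumed so that one can divide.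
-/

open Polynomial Matrix

namespace Pool.Agent.Helper31.FM

private theorem choose_half_ne (m : ℕ) : Ring.choose (1 / 2 : ℂ) m ≠ 0 := by
  have h1 : ∀ m : ℕ, (descPochhammer ℤ m).smeval (1 / 2 : ℂ) ≠ 0 := by
    intro m
    induction m with
    | zero => simp
    | succ m ih =>
      have h2 : (descPochhammer ℤ (m + 1)).smeval (1 / 2 : ℂ) =
          (descPochhammer ℤ m).smeval (1 / 2 : ℂ) * (1 / 2 - (m : ℂ)) := by
        simp [descPochhammer_succ_right, Polynomial.smeval_mul, Polynomial.smeval_natCast]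
      rw [h2]
      refine mul_ne_zero ih ?_
      intro h3
      have h4 : ((1 : ℕ) : ℂ) = ((2 * m : ℕ) : ℂ) := by
        push_cast
        linear_combination 2 * h3
      have h5 : 1 = 2 * m := by exact_mod_cast h4
      omega
  intro h
  have h2 := Ring.descPochhammer_eq_factorial_smul_choose (1 / 2 : ℂ) m
  rw [h, smul_zero] at h2
  exact h1 m h2

private theorem coef : ∃ (c : ℕ → ℂ) (B : ℝ), 0 < B ∧ (∀ m, c m ≠ 0) ∧ (∀ m, ‖c m‖ ≤ B * 2 ^ m) ∧
    ∀ t : ℂ, ‖t‖ < 1 → HasSum (fun m => c m * t ^ m) (hs t) := by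
  have hf := Complex.one_add_cpow_hasFPowerSeriesOnBall_zero (a := (1 / 2 : ℂ))
  have hr : (((1 / 2 : NNReal)) : ENNReal) < (binomialSeries ℂ (1 / 2 : ℂ)).radius := by
    refine lt_of_lt_of_le ?_ hf.r_le
    rw [← ENNReal.coe_one, ENNReal.coe_lt_coe]
    norm_num
  obtain ⟨C, hC, hb⟩ := (binomialSeries ℂ (1 / 2 : ℂ)).norm_mul_pow_le_of_lt_radius hr
  refine ⟨fun m => Ring.choose (1 / 2 : ℂ) m * (-1) ^ m, C, hC, ?_, ?_, ?_⟩
  · intro m
    exact mul_ne_zero (choose_half_ne m) (pow_ne_zero _ (by norm_num))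
  · intro m
    have h1 := (binomialSeries ℂ (1 / 2 : ℂ) m).le_opNorm (fun _ => (1 : ℂ))
    rw [binomialSeries_apply] at h1
    simp only [norm_one, Finset.prod_const_one, mul_one] at h1
    have h2 : (List.ofFn (fun _ : Fin m => (1 : ℂ))).prod = 1 := by simp
    rw [h2, smul_eq_mul, mul_one] at h1
    have h3 := hb m
    rw [norm_mul, norm_pow, norm_neg, norm_one, one_pow, mul_one]
    refine h1.trans ?_
    have h4 : (((1 / 2 : NNReal) : NNReal) : ℝ) = 1 / 2 := by norm_num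
    rw [h4] at h3
    have h5 : (0 : ℝ) < 2 ^ m := by positivity
    calc ‖binomialSeries ℂ (1 / 2 : ℂ) m‖ = ‖binomialSeries ℂ (1 / 2 : ℂ) m‖ * (1 / 2) ^ m * 2 ^ m := by
          rw [mul_assoc, ← mul_pow]
          norm_num
      _ ≤ C * 2 ^ m := mul_le_mul_of_nonneg_right h3 h5.le
  · intro t ht
    have h1 := hf.hasSum (y := -t) (by
      rw [← ENNReal.ofReal_one, Metric.eball_ofReal]
      simpa using ht)
    simp only [zero_add] at h1
    unfold hs
    rw [sub_eq_add_neg]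
    have h3 : (fun m : ℕ => Ring.choose (1 / 2 : ℂ) m * (-1) ^ m * t ^ m) =
        fun m : ℕ => (binomialSeries ℂ (1 / 2 : ℂ) m) fun _ => -t := by
      funext m
      rw [binomialSeries_apply]
      have h2 : (List.ofFn (fun _ : Fin m => -t)).prod = (-t) ^ m := by simp
      rw [h2, smul_eq_mul, mul_assoc, ← mul_pow]
      ring
    rw [h3]
    exact h1

private theorem det_cont (n : ℕ) (c : ℕ → ℂ) (hc : ∀ m, c m ≠ 0) : ∃ ε : ℝ, 0 < ε ∧
    ∀ M : Fin n → Fin n → ℂ, (∀ j l, ‖M j l - (if j = l then c (j : ℕ) else 0)‖ < ε) →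
      ‖(Matrix.of M).det - ∏ j : Fin n, c (j : ℕ)‖ ≤ ‖∏ j : Fin n, c (j : ℕ)‖ / 2 := by
  have hP : 0 < ‖∏ j : Fin n, c (j : ℕ)‖ := norm_pos_iff.2 (Finset.prod_ne_zero_iff.2 fun j _ => hc _)
  have hcont : Continuous fun M : Fin n → Fin n → ℂ => (Matrix.of M).det := by
    have h1 : Continuous fun M : Fin n → Fin n → ℂ => Matrix.of M := continuous_id
    exact h1.matrix_det
  have h1 := Metric.continuousAt_iff.1 (hcont.continuousAt
    (x := fun j l : Fin n => if j = l then c (j : ℕ) else 0)) (‖∏ j : Fin n, c (j : ℕ)‖ / 2)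
    (by positivity)
  obtain ⟨ε, hε, h2⟩ := h1
  refine ⟨ε, hε, fun M hM => ?_⟩
  have h3 : dist M (fun j l : Fin n => if j = l then c (j : ℕ) else 0) < ε := by
    rw [dist_pi_lt_iff hε]
    intro j
    rw [dist_pi_lt_iff hε]
    intro l
    rw [dist_eq_norm]
    exact hM j l
  have h4 := h2 h3
  have h5 : (Matrix.of fun j l : Fin n => if j = l then c (j : ℕ) else 0).det =
      ∏ j : Fin n, c (j : ℕ) := by
    have h6 : (Matrix.of fun j l : Fin n => if j = l then c (j : ℕ) else 0) =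
        Matrix.diagonal fun j : Fin n => c (j : ℕ) := by
      ext j l
      rw [Matrix.of_apply, Matrix.diagonal_apply]
    rw [h6, Matrix.det_diagonal]
  rw [dist_eq_norm, h5] at h4
  exact h4.le


/-- one entry of the middle matrix -/
private theorem entry (n : ℕ) (c : ℕ → ℂ) (B q R S : ℝ) (hB : 0 < B) (hq : 1 ≤ q) (hR : 0 < R) (hS : 0 < S)
    (hcB : ∀ m, ‖c m‖ ≤ B * 2 ^ m) (hx : 2 * q ^ 2 * (R * S) ≤ 1 / 2)
    (E F : ℕ → ℂ) (j l : Fin n)
    (hE0 : ∀ m < n, E m = if m = (j : ℕ) then 1 else 0)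
    (hF0 : ∀ m < n, F m = if m = (l : ℕ) then 1 else 0)
    (hE : ∀ m, ‖E m‖ * R ^ (j : ℕ) ≤ q ^ m * R ^ m)
    (hF : ∀ m, ‖F m‖ * S ^ (l : ℕ) ≤ q ^ m * S ^ m) :
    Summable (fun m => c m * (E m * F m)) ∧
    ‖(R : ℂ) ^ (j : ℕ) * (∑' m, c m * (E m * F m)) * ((R : ℂ) ^ (l : ℕ))⁻¹ -
      (if j = l then c (j : ℕ) else 0)‖ ≤ B * (2 * q ^ 2) ^ n * 2 * (2 * q ^ 2 * (R * S)) := by
  obtain ⟨x, hxd⟩ : ∃ x, x = 2 * q ^ 2 * (R * S) := ⟨_, rfl⟩
  have hx0 : 0 < x := by rw [hxd]; positivity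
  have hx1 : x ≤ 1 / 2 := by rw [hxd]; exact hx
  have hRS : 0 < R * S := mul_pos hR hS
  -- the basic bound
  have key : ∀ m, ‖c m * (E m * F m)‖ * (R ^ (j : ℕ) * S ^ (l : ℕ)) ≤ B * x ^ m := by
    intro m
    rw [norm_mul, norm_mul]
    calc ‖c m‖ * (‖E m‖ * ‖F m‖) * (R ^ (j : ℕ) * S ^ (l : ℕ)) =
        ‖c m‖ * ((‖E m‖ * R ^ (j : ℕ)) * (‖F m‖ * S ^ (l : ℕ))) := by ring
      _ ≤ (B * 2 ^ m) * ((q ^ m * R ^ m) * (q ^ m * S ^ m)) := by
          refine mul_le_mul (hcB m) (mul_le_mul (hE m) (hF m) (by positivity) (by positivity))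
            (by positivity) (by positivity)
      _ = B * x ^ m := by
          rw [hxd, mul_pow, mul_pow, mul_pow, ← pow_mul, mul_comm 2 m, pow_mul]
          ring
  have hD : 0 < R ^ (j : ℕ) * S ^ (l : ℕ) := by positivity
  have hgeo : Summable fun m => x ^ m := summable_geometric_of_lt_one hx0.le (by linarith)
  have hsum : Summable (fun m => c m * (E m * F m)) := by
    refine Summable.of_norm_bounded (g := fun m => (B / (R ^ (j : ℕ) * S ^ (l : ℕ))) * x ^ m)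
      (hgeo.mul_left _) fun m => ?_
    have h1 := key m
    rw [div_mul_eq_mul_div, le_div_iff₀ hD]
    exact h1
  refine ⟨hsum, ?_⟩
  have h1 : (∑' m, c m * (E m * F m)) = (∑ m ∈ Finset.range n, c m * (E m * F m)) +
      ∑' m, c (m + n) * (E (m + n) * F (m + n)) := (hsum.sum_add_tsum_nat_add n).symm
  have h2 : (∑ m ∈ Finset.range n, c m * (E m * F m)) = if j = l then c (j : ℕ) else 0 := by
    have h3 : ∀ m ∈ Finset.range n, c m * (E m * F m) =
        if m = (j : ℕ) then (if j = l then c (j : ℕ) else 0) else 0 := by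
      intro m hm
      rw [hE0 m (Finset.mem_range.1 hm), hF0 m (Finset.mem_range.1 hm)]
      by_cases h4 : m = (j : ℕ)
      · rw [if_pos h4, if_pos h4, h4]
        by_cases h5 : j = l
        · rw [if_pos h5, if_pos (by rw [h5])]
          ring
        · rw [if_neg h5, if_neg (fun h6 => h5 (Fin.ext h6))]
          ring
      · rw [if_neg h4, if_neg h4]
        ring
    rw [Finset.sum_congr rfl h3, Finset.sum_ite_eq' (Finset.range n) (j : ℕ),
      if_pos (Finset.mem_range.2 j.2)]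
  have hRne : ∀ i : ℕ, (R : ℂ) ^ i ≠ 0 := fun i => pow_ne_zero _ (by exact_mod_cast hR.ne')
  have h3 : (R : ℂ) ^ (j : ℕ) * (∑' m, c m * (E m * F m)) * ((R : ℂ) ^ (l : ℕ))⁻¹ -
      (if j = l then c (j : ℕ) else 0) =
      (R : ℂ) ^ (j : ℕ) * (∑' m, c (m + n) * (E (m + n) * F (m + n))) * ((R : ℂ) ^ (l : ℕ))⁻¹ := by
    rw [h1, h2]
    by_cases h4 : j = l
    · subst h4
      rw [if_pos rfl]
      have := hRne (j : ℕ)
      field_simp
      ring
    · rw [if_neg h4]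
      ring
  rw [h3, norm_mul, norm_mul, norm_inv, norm_pow, norm_pow, Complex.norm_real, Real.norm_of_nonneg hR.le]
  -- the tail
  have hql : 1 ≤ 2 * q ^ 2 := by nlinarith
  have htail : ‖∑' m, c (m + n) * (E (m + n) * F (m + n))‖ ≤
      (B * (2 * q ^ 2) ^ n * 2 * x) * (R ^ (l : ℕ) / R ^ (j : ℕ)) := by
    have h5 : HasSum (fun m => (B * (2 * q ^ 2) ^ n * x * (R ^ (l : ℕ) / R ^ (j : ℕ))) * x ^ m)
        ((B * (2 * q ^ 2) ^ n * x * (R ^ (l : ℕ) / R ^ (j : ℕ))) * (1 - x)⁻¹) :=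
      (hasSum_geometric_of_lt_one hx0.le (by linarith)).mul_left _
    refine (tsum_of_norm_bounded h5 fun m => ?_).trans ?_
    · have h6 := key (m + n)
      have h7 : x ^ (m + n) ≤ x ^ m * x * ((2 * q ^ 2) ^ n * (R * S) ^ (l : ℕ)) := by
        have hl : (l : ℕ) < n := l.2
        obtain ⟨i, hi⟩ : ∃ i, n = (l : ℕ) + 1 + i := ⟨n - ((l : ℕ) + 1), by omega⟩
        have h8 : x ^ (l : ℕ) = (2 * q ^ 2) ^ (l : ℕ) * (R * S) ^ (l : ℕ) := by
          rw [hxd, mul_pow]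
        have h9 : x ^ (m + n) = x ^ m * x * x ^ i * x ^ (l : ℕ) := by
          rw [show m + n = m + 1 + i + (l : ℕ) by omega, pow_add, pow_add, pow_add, pow_one]
        have h10 : x ^ i ≤ 1 := pow_le_one₀ hx0.le (by linarith)
        have h11 : (2 * q ^ 2) ^ (l : ℕ) ≤ (2 * q ^ 2) ^ n := pow_le_pow_right₀ hql hl.le
        rw [h9, h8]
        have h12 : x ^ m * x * x ^ i ≤ x ^ m * x * 1 :=
          mul_le_mul_of_nonneg_left h10 (by positivity)
        calc x ^ m * x * x ^ i * ((2 * q ^ 2) ^ (l : ℕ) * (R * S) ^ (l : ℕ))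
            ≤ x ^ m * x * 1 * ((2 * q ^ 2) ^ n * (R * S) ^ (l : ℕ)) :=
              mul_le_mul h12 (mul_le_mul_of_nonneg_right h11 (by positivity)) (by positivity)
                (by positivity)
          _ = _ := by ring
      have h8 : ‖c (m + n) * (E (m + n) * F (m + n))‖ * (R ^ (j : ℕ) * S ^ (l : ℕ)) ≤
          B * (x ^ m * x * ((2 * q ^ 2) ^ n * (R * S) ^ (l : ℕ))) :=
        h6.trans (mul_le_mul_of_nonneg_left h7 hB.le)
      rw [← le_div_iff₀ hD] at h8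
      refine h8.trans (le_of_eq ?_)
      rw [mul_pow R S]
      have := (pow_pos hR (j : ℕ)).ne'
      have := (pow_pos hS (l : ℕ)).ne'
      field_simp
    · have h6 : (1 - x)⁻¹ ≤ 2 := by
        rw [inv_le_comm₀ (by linarith) (by norm_num)]
        linarith
      calc (B * (2 * q ^ 2) ^ n * x * (R ^ (l : ℕ) / R ^ (j : ℕ))) * (1 - x)⁻¹
          ≤ (B * (2 * q ^ 2) ^ n * x * (R ^ (l : ℕ) / R ^ (j : ℕ))) * 2 :=
            mul_le_mul_of_nonneg_left h6 (by positivity)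
        _ = _ := by ring
  have hj := pow_pos hR (j : ℕ)
  have hl := pow_pos hR (l : ℕ)
  calc R ^ (j : ℕ) * ‖∑' m, c (m + n) * (E (m + n) * F (m + n))‖ * (R ^ (l : ℕ))⁻¹
      ≤ R ^ (j : ℕ) * ((B * (2 * q ^ 2) ^ n * 2 * x) * (R ^ (l : ℕ) / R ^ (j : ℕ))) *
          (R ^ (l : ℕ))⁻¹ := by
        refine mul_le_mul_of_nonneg_right (mul_le_mul_of_nonneg_left htail hj.le) (by positivity)
    _ = B * (2 * q ^ 2) ^ n * 2 * x := by
        field_simp
    _ = B * (2 * q ^ 2) ^ n * 2 * (2 * q ^ 2 * (R * S)) := by rw [hxd]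

theorem det_hs (n : ℕ) : ∃ η c : ℝ, 0 < η ∧ 1 ≤ c ∧ ∀ (s θ : Fin n → ℂ) (S R : ℝ), 0 < S → 0 < R →
    (∀ k, ‖s k‖ ≤ S) → (∀ i, ‖θ i‖ ≤ R) → S * R ≤ η →
    ∃ w : ℂ, c⁻¹ ≤ ‖w‖ ∧ ‖w‖ ≤ c ∧ (Matrix.of fun i k => hs (s k * θ i)).det =
      (Matrix.vandermonde s).det * (Matrix.vandermonde θ).det * w := by
  obtain ⟨c, B, hB, hc, hcB, hsum⟩ := coef
  obtain ⟨ε, hε, hdet⟩ := det_cont n c hc
  obtain ⟨P, hP⟩ : ∃ P, P = ‖∏ j : Fin n, c (j : ℕ)‖ := ⟨_, rfl⟩
  have hP0 : 0 < P := by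
    rw [hP]
    exact norm_pos_iff.2 (Finset.prod_ne_zero_iff.2 fun j _ => hc _)
  obtain ⟨q, hq⟩ : ∃ q : ℝ, q = 1 + 2 ^ n := ⟨_, rfl⟩
  have hq1 : 1 ≤ q := by
    rw [hq]
    have : (0 : ℝ) ≤ 2 ^ n := by positivity
    linarith
  obtain ⟨K, hK⟩ : ∃ K : ℝ, K = B * (2 * q ^ 2) ^ n * 2 * (2 * q ^ 2) := ⟨_, rfl⟩
  have hK0 : 0 < K := by
    rw [hK]
    positivity
  have hqq : 0 < 2 * q ^ 2 := by positivity
  refine ⟨min (1 / (2 * (2 * q ^ 2))) (ε / (2 * K)), max 1 (max (2 * P) (2 / P)), ?_, le_max_left _ _, ?_⟩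
  · exact lt_min (by positivity) (by positivity)
  intro s θ S R hS hR hsS hθR hη
  have hη1 : 2 * q ^ 2 * (R * S) ≤ 1 / 2 := by
    have h1 := hη.trans (min_le_left _ _)
    rw [le_div_iff₀ (by positivity)] at h1
    linarith
  have hη2 : K * (R * S) < ε := by
    have h1 := hη.trans (min_le_right _ _)
    rw [le_div_iff₀ (by positivity)] at h1
    nlinarith
  obtain ⟨E, hE1, hE2, hE3⟩ := red_pow n θ R hR hθR
  obtain ⟨F, hF1, hF2, hF3⟩ := red_pow n s S hS hsS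
  rw [← hq] at hE3 hF3
  have hent := fun j l : Fin n => entry n c B q R S hB hq1 hR hS hcB hη1 (fun m => E m j)
    (fun m => F m l) j l (fun m hm => hE2 m hm j) (fun m hm => hF2 m hm l)
    (fun m => hE3 m j) (fun m => hF3 m l)
  let W : Matrix (Fin n) (Fin n) ℂ := Matrix.of fun j l => ∑' m, c m * (E m j * F m l)
  let W' : Fin n → Fin n → ℂ := fun j l =>
    (R : ℂ) ^ (j : ℕ) * (∑' m, c m * (E m j * F m l)) * ((R : ℂ) ^ (l : ℕ))⁻¹
  have hRne : ∀ i : ℕ, (R : ℂ) ^ i ≠ 0 := fun i => pow_ne_zero _ (by exact_mod_cast hR.ne')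
  have hWW : (Matrix.of W').det = W.det := by
    have h1 : Matrix.of W' = Matrix.diagonal (fun j : Fin n => (R : ℂ) ^ (j : ℕ)) * W *
        Matrix.diagonal (fun l : Fin n => ((R : ℂ) ^ (l : ℕ))⁻¹) := by
      ext j l
      rw [Matrix.mul_diagonal, Matrix.diagonal_mul]
      rfl
    rw [h1, Matrix.det_mul, Matrix.det_mul, Matrix.det_diagonal, Matrix.det_diagonal,
      mul_right_comm, ← Finset.prod_mul_distrib]
    rw [Finset.prod_eq_one fun j _ => mul_inv_cancel₀ (hRne _), one_mul]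
  have hW := hdet W' (fun j l => by
    refine (hent j l).2.trans_lt ?_
    have h1 : B * (2 * q ^ 2) ^ n * 2 * (2 * q ^ 2 * (R * S)) = K * (R * S) := by
      rw [hK]
      ring
    rw [h1]
    exact hη2)
  rw [hWW, ← hP] at hW
  have hlow : P / 2 ≤ ‖W.det‖ := by
    have h1 : P ≤ ‖W.det‖ + ‖W.det - ∏ j : Fin n, c (j : ℕ)‖ := by
      rw [hP]
      calc ‖∏ j : Fin n, c (j : ℕ)‖ = ‖W.det - (W.det - ∏ j : Fin n, c (j : ℕ))‖ := by
            congr 1
            ring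
        _ ≤ _ := norm_sub_le _ _
    linarith
  have hup : ‖W.det‖ ≤ 2 * P := by
    have h1 : ‖W.det‖ ≤ ‖W.det - ∏ j : Fin n, c (j : ℕ)‖ + P := by
      rw [hP]
      calc ‖W.det‖ = ‖(W.det - ∏ j : Fin n, c (j : ℕ)) + ∏ j : Fin n, c (j : ℕ)‖ := by
            congr 1
            ring
        _ ≤ _ := norm_add_le _ _
    linarith
  refine ⟨W.det, ?_, ?_, ?_⟩
  · have h1 : 2 / P ≤ max 1 (max (2 * P) (2 / P)) := (le_max_right _ _).trans (le_max_right _ _)
    have h2 : (max 1 (max (2 * P) (2 / P)))⁻¹ ≤ (2 / P)⁻¹ := inv_anti₀ (by positivity) h1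
    refine h2.trans ?_
    rw [inv_div]
    exact hlow
  · exact hup.trans ((le_max_left _ _).trans (le_max_right _ _))
  · have hM : (Matrix.of fun i k => hs (s k * θ i)) =
        Matrix.vandermonde θ * W * (Matrix.vandermonde s).transpose := by
      ext i k
      have ht : ‖s k * θ i‖ < 1 := by
        rw [norm_mul]
        have h1 : ‖s k‖ * ‖θ i‖ ≤ S * R := mul_le_mul (hsS k) (hθR i) (norm_nonneg _) hS.le
        have h0 : (1 : ℝ) ≤ 2 * q ^ 2 := by nlinarith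
        have h2 : S * R ≤ 2 * q ^ 2 * (R * S) := by
          have h3 := mul_le_mul_of_nonneg_right h0 (mul_pos hR hS).le
          linarith
        linarith
      have h1 := hsum _ ht
      have h2 : HasSum (fun m => ∑ l : Fin n, ∑ j : Fin n,
          θ i ^ (j : ℕ) * s k ^ (l : ℕ) * (c m * (E m j * F m l)))
          (∑ l : Fin n, ∑ j : Fin n, θ i ^ (j : ℕ) * s k ^ (l : ℕ) * W j l) :=
        hasSum_sum fun l _ => hasSum_sum fun j _ => (hent j l).1.hasSum.mul_left _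
      have h3 : (fun m => ∑ l : Fin n, ∑ j : Fin n,
          θ i ^ (j : ℕ) * s k ^ (l : ℕ) * (c m * (E m j * F m l))) =
          fun m => c m * (s k * θ i) ^ m := by
        funext m
        rw [mul_pow, hF1 k m, hE1 i m, Finset.sum_mul_sum, Finset.mul_sum]
        refine Finset.sum_congr rfl fun l _ => ?_
        rw [Finset.mul_sum]
        refine Finset.sum_congr rfl fun j _ => ?_
        ring
      rw [h3] at h2
      rw [Matrix.of_apply, h1.unique h2, Matrix.mul_apply]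
      refine Finset.sum_congr rfl fun l _ => ?_
      rw [Matrix.mul_apply, Finset.sum_mul]
      refine Finset.sum_congr rfl fun j _ => ?_
      rw [Matrix.vandermonde_apply, Matrix.transpose_apply, Matrix.vandermonde_apply]
      ring
    rw [hM, Matrix.det_mul, Matrix.det_mul, Matrix.det_transpose]
    ring

end Pool.Agent.Helper31.FM
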