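import Pool.Agent.Helper31.FM.Defs

set_option autoImplicit false

/-!
FM-D2 Ser. The functionals `lam_i` (formal residues at `θ_i`) and their two basic properties.

`sqE = (1 - 4 t)^(1/2) ∈ ℤ[[t]]`, `cs k m` = coefficient of `t^m` in `(1 - 4t)^k (1 - 4t)^(1/2)`.
`wser k s θ = (1 - s θ)^k (1 - σ t)^(k + 1/2)`, `σ = s / (1 - s θ)`; `qser a θ i = f(θ_i + t)/t = a ∏_(j ≠ i) (θ_i - θ_j + t)`.
`lam a θ s k i P` = coefficient of `t^k` in `P(θ_i + t) wser qser^(-(k+1))`. `Dk` = numerator of the derivative of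
`S W^(k+3/2) / f^k`, `W = 1 - s z`.

PROOFS. `sqE_sq`: `sqE = 1 - 2 t ∑ catalan m t^m`, `catalan_succ` (`PowerSeries` of catalan numbers; perhaps already in Mathlib:
`Mathlib/Combinatorics/Enumerative/Catalan` or the `HD` files of helper36: `rsq`, `cf`). `wser_ode`: from `E^2 = 1 - 4t`: `(1-4t) E' = -2 E`;
`wser = C ((1-sθ)^k) * ((1-4t)^k E) (σ t / 4)` (`PowerSeries.rescale`, `PowerSeries.map`).
-/

open Polynomial

namespace Pool.Agent.Helper31.FM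

/-- `(1 - 4 t)^(1/2)` -/
noncomputable def sqE : PowerSeries ℤ :=
  PowerSeries.mk fun m => if m = 0 then 1 else -2 * (catalan (m - 1) : ℤ)

/-- coefficients of `(1 - 4 t)^(k + 1/2)` -/
noncomputable def cs (k m : ℕ) : ℤ := PowerSeries.coeff m ((1 - 4 * PowerSeries.X) ^ k * sqE)

/-- `(1 - s θ)^k (1 - s t / (1 - s θ))^(k + 1/2)` -/
noncomputable def wser (k : ℕ) (s θ : ℂ) : PowerSeries ℂ :=
  PowerSeries.mk fun m => (1 - s * θ) ^ k * (cs k m : ℂ) * (s / (4 * (1 - s * θ))) ^ m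

/-- the polynomial `f` over `ℂ` -/
noncomputable def fC {n : ℕ} (a : ℤ) (θ : Fin n → ℂ) : ℂ[X] := C (a : ℂ) * ∏ i, (X - C (θ i))

/-- `f(θ_i + t) / t` -/
noncomputable def qpol {n : ℕ} (a : ℤ) (θ : Fin n → ℂ) (i : Fin n) : ℂ[X] :=
  C (a : ℂ) * ∏ j ∈ Finset.univ.erase i, (X + C (θ i - θ j))

/-- formal residue of `P (1 - s z)^(k+1/2) / f^(k+1)` at `θ_i`, divided by `(1 - s θ_i)^(1/2)` -/
noncomputable def lam {n : ℕ} (a : ℤ) (θ : Fin n → ℂ) (s : ℂ) (k : ℕ) (i : Fin n) (P : ℂ[X]) : ℂ :=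
  PowerSeries.coeff k (((P.comp (X + C (θ i)) : ℂ[X]) : PowerSeries ℂ) * wser k s (θ i) *
    ((qpol a θ i : ℂ[X]) : PowerSeries ℂ)⁻¹ ^ (k + 1))

/-- numerator of the derivative of `S (1 - s z)^(k+3/2) / f^k` -/
noncomputable def Dk (k : ℕ) (s : ℂ) (f S : ℂ[X]) : ℂ[X] :=
  f * ((1 - C s * X) * derivative S - C (((k : ℂ) + 3 / 2) * s) * S) -
    C (k : ℂ) * (1 - C s * X) * S * derivative f

theorem sqE_sq : sqE ^ 2 = 1 - 4 * PowerSeries.X := by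
  sorry

theorem wser_ode (k : ℕ) (s θ : ℂ) (h : 1 - s * θ ≠ 0) :
    (PowerSeries.C (1 - s * θ) - PowerSeries.C s * PowerSeries.X) *
      PowerSeries.derivative ℂ (wser k s θ) = PowerSeries.C (-((k : ℂ) + 1 / 2) * s) * wser k s θ := by
  sorry

theorem lam_add {n : ℕ} (a : ℤ) (θ : Fin n → ℂ) (s : ℂ) (k : ℕ) (i : Fin n) (P Q : ℂ[X]) :
    lam a θ s k i (P + Q) = lam a θ s k i P + lam a θ s k i Q := by
  sorry

theorem lam_smul {n : ℕ} (a : ℤ) (θ : Fin n → ℂ) (s : ℂ) (k : ℕ) (i : Fin n) (c : ℂ) (P : ℂ[X]) :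
    lam a θ s k i (C c * P) = c * lam a θ s k i P := by
  sorry

end Pool.Agent.Helper31.FM
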