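import Pool.Agent.Helper31.FM.PatEx
import Pool.Agent.Helper31.FM.Ser

set_option autoImplicit false

/-!
FM-D6 FpLower. A common integral multiple of the `f'(θ_i)`; bounds.

PROOF. `D = Res(f, f') ∈ ℤ`, `U f + V f' = D` with `U, V ∈ ℤ[X]`, `deg V < n` (adjugate of the Sylvester matrix; Mathlib
`Polynomial.resultant`, or: multiplication by `f'` on `ℤ[X]/f` after a power of `a_n`, adjugate), `D = ± a_n^(n-1) ∏ f'(θ_i)`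
(any other nonzero integer `D` with `D = a_n^e ∏_i f'(θ_i)` will do; e.g. the characteristic polynomial of `f'(M)`, `M` the integral companion
matrix of `a_n θ`). Then `V(θ_i) = D / f'(θ_i) = ± a_n^(n-1) ∏_(j≠i) f'(θ_j)`, and `‖f'(θ_j)‖ ≤ n H (2H)^n...`, since `‖θ‖ ≤ 1 + H`.
`fp_lower`: `1 ≤ |D| = ‖V(θ_i)‖ ‖fp_i‖`. `qpol_bound`: coefficients of `f(θ_i + t)/t` are `∑_r binom a_r θ^..`.
-/

open Polynomial

namespace Pool.Agent.Helper31.FM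

theorem fp_common (n : ℕ) (hn : 0 < n) : ∃ K : ℕ, ∀ (H : ℕ), 1 ≤ H → ∀ (a : Fin (n + 1) → ℤ)
    (θ : Fin n → ℂ), (∀ i, |a i| ≤ (H : ℤ)) → Roots a θ → ∃ (D : ℤ) (V : ℤ[X]), D ≠ 0 ∧
      |(D : ℝ)| ≤ K * (H : ℝ) ^ K ∧ V.natDegree ≤ K ∧ ∀ i,
        aeval (θ i) V * fp (a (Fin.last n)) θ i = D ∧ ‖aeval (θ i) V‖ ≤ K * (H : ℝ) ^ K ∧
        1 ≤ K * (H : ℝ) ^ K * ‖fp (a (Fin.last n)) θ i‖ := by
  sorry

theorem qpol_bound (n : ℕ) : ∃ K : ℕ, ∀ (H : ℕ), 1 ≤ H → ∀ (a : Fin (n + 1) → ℤ)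
    (θ : Fin n → ℂ), (∀ i, |a i| ≤ (H : ℤ)) → Roots a θ → ∀ i r,
      ‖(qpol (a (Fin.last n)) θ i).coeff r‖ ≤ K * (H : ℝ) ^ K ∧
      (1 + ‖θ i‖) ^ n ≤ K * (H : ℝ) ^ K := by
  sorry

end Pool.Agent.Helper31.FM
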