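import Pool.Agent.Helper31.FM.PatEx
import Pool.Agent.Helper31.FM.DetHs

set_option autoImplicit false

/-!
FM-C2 Gap. Gap principle: `n` points with the same pattern in one frame.

PROOF. `l_i (u_k) = ε_i γ_i ρ_k hs(θ_i / x_k)`, `s_k = 1/x_k`, `S = 1/Y`, `R = max ‖θ_i‖` (or `Y/C` to have `R > 0`), `S R ≤ 1/C ≤ η`.
`det (l_i (u_k)) = ∏ ε_i γ_i ∏ ρ_k det (hs (s_k θ_i))` (`Matrix.det_mul_row`, `det_mul_column`) `= ... V(s) V(θ) w ≠ 0` (`x_k` distinct,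
`θ_i` distinct), so by `Frame.det`: `∏ ‖α_i‖ ≤ ∏ ‖γ_i‖^2 ∏ |x_k| ‖V(s)‖^2 ‖V(θ)‖^2 c^2`, `‖γ_i‖^2 = ‖α_i‖ / ‖fp_i‖`,
`∏ ‖fp_i‖ = |a|^n ‖V(θ)‖^2` (`∏_i ∏_(j≠i) (θ_i - θ_j) = ± V(θ)^2`: `Matrix.det_vandermonde`). Hence
`1 ≤ |a|^n ≤ c^2 ∏ |x_k| ‖V(s)‖^2 ≤ c^2 Z^n (2/Y)^(n(n-1))`, so `Y^(n(n-1)) ≤ c^2 2^(n(n-1)) Z^n`, `Y^(n-1) ≤ C Z`, and `Y^2 ≤ Y^(n-1)`.
-/

open Polynomial Matrix

namespace Pool.Agent.Helper31.FM

/-- the square of the norm of a Vandermonde determinant -/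
private theorem gap_vand (n : ℕ) (v : Fin n → ℂ) :
    ‖(Matrix.vandermonde v).det‖ ^ 2 = ∏ i, ∏ j ∈ Finset.univ.erase i, ‖v i - v j‖ := by
  rw [Matrix.det_vandermonde, norm_prod]
  simp_rw [norm_prod]
  rw [sq, ← Finset.prod_mul_distrib]
  have h1 : ∀ i : Fin n, (∏ j ∈ Finset.Ioi i, ‖v j - v i‖) * ∏ j ∈ Finset.Ioi i, ‖v j - v i‖ =
      ∏ j ∈ Finset.Ioi i, ((fun a b => ‖v b - v a‖) j i * (fun a b => ‖v b - v a‖) i j) := by
    intro i
    rw [← Finset.prod_mul_distrib]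
    refine Finset.prod_congr rfl fun j _ => ?_
    simp only
    rw [norm_sub_rev (v i) (v j)]
  rw [Finset.prod_congr rfl fun i _ => h1 i, Finset.prod_prod_Ioi_mul_eq_prod_prod_off_diag]
  refine Finset.prod_congr rfl fun i _ => ?_
  refine Finset.prod_congr ?_ fun j _ => rfl
  ext j
  simp

theorem gap (n : ℕ) (hn : 3 ≤ n) : ∃ c : ℝ, 1 ≤ c ∧ ∀ (a : Fin (n + 1) → ℤ) (θ α γ : Fin n → ℂ)
    (l : Fin n → (Fin n → ℤ) → ℂ) (e : Fin n → Bool), Frame a θ α l → Gam a θ α γ →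
    ∀ (x : Fin n → ℤ) (u : Fin n → Fin n → ℤ), Function.Injective x →
    (∀ k, Pat θ l γ e (x k) (u k)) → ∀ Y Z : ℝ, c ≤ Y → (∀ i, c * ‖θ i‖ ≤ Y) →
    (∀ k, Y ≤ |(x k : ℝ)|) → (∀ k, |(x k : ℝ)| ≤ Z) → Y ^ 2 ≤ c * Z := by
  obtain ⟨η, c1, hη, hc1, hdet⟩ := det_hs n
  have hηi : 0 < 1 / η := by positivity
  have hK : 0 ≤ c1 ^ 2 * 2 ^ (n - 1) := by positivity
  refine ⟨1 + 1 / η + c1 ^ 2 * 2 ^ (n - 1), by linarith, ?_⟩
  intro a θ α γ l e hF hG x u hx hP Y Z hcY hθ hY hZ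
  set c : ℝ := 1 + 1 / η + c1 ^ 2 * 2 ^ (n - 1) with hc
  have hc0 : 0 < c := by linarith
  have hc1' : 1 ≤ c := by linarith
  have hY0 : 0 < Y := lt_of_lt_of_le hc0 hcY
  have hY1 : 1 ≤ Y := hc1'.trans hcY
  have hn0 : 0 < n := by omega
  have hYZ : Y ≤ Z := (hY ⟨0, hn0⟩).trans (hZ ⟨0, hn0⟩)
  have hZ0 : 0 < Z := hY0.trans_le hYZ
  have hx0 : ∀ k, (x k : ℂ) ≠ 0 := by
    intro k h0
    have h1 : (x k : ℤ) = 0 := by exact_mod_cast h0
    have h2 := hY k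
    rw [h1] at h2
    simp at h2
    linarith
  have hxn : ∀ k, ‖(x k : ℂ)‖ = |(x k : ℝ)| := by
    intro k
    rw [Complex.norm_intCast]
  choose ρ hρ hl using hP
  set s : Fin n → ℂ := fun k => 1 / (x k : ℂ) with hs'
  have hsn : ∀ k, ‖s k‖ ≤ 1 / Y := by
    intro k
    simp only [hs']
    rw [norm_div, norm_one, hxn]
    exact one_div_le_one_div_of_le hY0 (hY k)
  have hθn : ∀ i, ‖θ i‖ ≤ Y / c := by
    intro i
    rw [le_div_iff₀ hc0, mul_comm]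
    exact hθ i
  have hSR : 1 / Y * (Y / c) ≤ η := by
    have h1 : 1 / Y * (Y / c) = 1 / c := by
      field_simp
    rw [h1, div_le_iff₀ hc0, hc]
    have h2 : η * (1 / η) = 1 := by
      field_simp
    have h3 : 0 ≤ η * (c1 ^ 2 * 2 ^ (n - 1)) := mul_nonneg hη.le hK
    nlinarith
  obtain ⟨w, hw1, hw2, hdw⟩ := hdet s θ (1 / Y) (Y / c) (by positivity) (by positivity) hsn hθn hSR
  have hw0 : w ≠ 0 := by
    intro h0
    rw [h0, norm_zero] at hw1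
    have : 0 < c1⁻¹ := by positivity
    linarith
  have hsinj : Function.Injective s := by
    intro k k' hkk
    apply hx
    simp only [hs'] at hkk
    have h1 : (x k : ℂ) = x k' := by
      rw [one_div, one_div, _root_.inv_inj] at hkk
      exact hkk
    exact_mod_cast h1
  have hVs : (Matrix.vandermonde s).det ≠ 0 := Matrix.det_vandermonde_ne_zero_iff.2 hsinj
  have hVθ : (Matrix.vandermonde θ).det ≠ 0 :=
    Matrix.det_vandermonde_ne_zero_iff.2 hF.roots.inj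
  have hfp : ∀ i, fp (a (Fin.last n)) θ i ≠ 0 := fun i => fp_ne hF.roots i
  have hγ2 : ∀ i, ‖γ i‖ ^ 2 = ‖α i‖ / ‖fp (a (Fin.last n)) θ i‖ := by
    intro i
    rw [← norm_pow, hG i, norm_div]
  have hγ0 : ∀ i, γ i ≠ 0 := by
    intro i h0
    have h1 := hG i
    rw [h0] at h1
    have h2 : α i / fp (a (Fin.last n)) θ i ≠ 0 := div_ne_zero (hF.ne i) (hfp i)
    exact h2 (by rw [← h1]; ring)
  have hρ2 : ∀ k, ‖ρ k‖ ^ 2 = |(x k : ℝ)| := by
    intro k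
    rw [← norm_pow, hρ k, hxn]
  have hρ0 : ∀ k, ρ k ≠ 0 := by
    intro k h0
    have h1 := hρ k
    rw [h0] at h1
    exact hx0 k (by rw [← h1]; ring)
  -- the determinant
  have hM : (Matrix.of fun i k => l i (u k)).det =
      (∏ i, (if e i then (1 : ℂ) else -1) * γ i) * ((∏ k, ρ k) *
        (Matrix.of fun i k => hs (s k * θ i)).det) := by
    rw [← Matrix.det_mul_row, ← Matrix.det_mul_column]
    congr 1
    ext i k
    simp only [Matrix.of_apply]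
    rw [hl k i]
    have h1 : θ i / (x k : ℂ) = s k * θ i := by
      simp only [hs']
      ring
    rw [h1]
    ring
  have hεn : ∀ i, ‖(if e i then (1 : ℂ) else -1) * γ i‖ = ‖γ i‖ := by
    intro i
    rw [norm_mul]
    split_ifs <;> simp
  have hε0 : ∀ i, (if e i then (1 : ℂ) else -1) * γ i ≠ 0 := by
    intro i h0
    have h1 := hεn i
    rw [h0, norm_zero] at h1
    exact hγ0 i (norm_eq_zero.1 h1.symm)
  have hMne : (Matrix.of fun i k => l i (u k)).det ≠ 0 := by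
    rw [hM, hdw]
    exact mul_ne_zero (Finset.prod_ne_zero_iff.2 fun i _ => hε0 i)
      (mul_ne_zero (Finset.prod_ne_zero_iff.2 fun k _ => hρ0 k)
        (mul_ne_zero (mul_ne_zero hVs hVθ) hw0))
  have hMn : ‖(Matrix.of fun i k => l i (u k)).det‖ ^ 2 =
      (∏ i, ‖α i‖ / ‖fp (a (Fin.last n)) θ i‖) * ((∏ k, |(x k : ℝ)|) *
        (‖(Matrix.vandermonde s).det‖ ^ 2 * ‖(Matrix.vandermonde θ).det‖ ^ 2 * ‖w‖ ^ 2)) := by
    rw [hM, hdw, norm_mul, norm_mul, norm_mul, norm_mul, norm_prod, norm_prod, mul_pow, mul_pow,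
      mul_pow, mul_pow, ← Finset.prod_pow, ← Finset.prod_pow]
    congr 1
    · refine Finset.prod_congr rfl fun i _ => ?_
      rw [hεn, hγ2]
    · congr 1
      exact Finset.prod_congr rfl fun k _ => hρ2 k
  have hdetF := (hF.det u).resolve_left hMne
  rw [hMn] at hdetF
  have hαpos : 0 < ∏ i, ‖α i‖ := Finset.prod_pos fun i _ => norm_pos_iff.2 (hF.ne i)
  have hfppos : 0 < ∏ i, ‖fp (a (Fin.last n)) θ i‖ :=
    Finset.prod_pos fun i _ => norm_pos_iff.2 (hfp i)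
  rw [Finset.prod_div_distrib] at hdetF
  have hA1 : ∏ i, ‖fp (a (Fin.last n)) θ i‖ ≤ (∏ k, |(x k : ℝ)|) *
      (‖(Matrix.vandermonde s).det‖ ^ 2 * ‖(Matrix.vandermonde θ).det‖ ^ 2 * ‖w‖ ^ 2) := by
    have h1 : (∏ i, ‖α i‖) * ∏ i, ‖fp (a (Fin.last n)) θ i‖ ≤ (∏ i, ‖α i‖) *
        ((∏ k, |(x k : ℝ)|) * (‖(Matrix.vandermonde s).det‖ ^ 2 *
          ‖(Matrix.vandermonde θ).det‖ ^ 2 * ‖w‖ ^ 2)) := by
      have h2 := mul_le_mul_of_nonneg_right hdetF hfppos.le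
      have h3 : (∏ i, ‖α i‖) / (∏ i, ‖fp (a (Fin.last n)) θ i‖) *
          ((∏ k, |(x k : ℝ)|) * (‖(Matrix.vandermonde s).det‖ ^ 2 *
            ‖(Matrix.vandermonde θ).det‖ ^ 2 * ‖w‖ ^ 2)) *
              (∏ i, ‖fp (a (Fin.last n)) θ i‖) = (∏ i, ‖α i‖) *
        ((∏ k, |(x k : ℝ)|) * (‖(Matrix.vandermonde s).det‖ ^ 2 *
          ‖(Matrix.vandermonde θ).det‖ ^ 2 * ‖w‖ ^ 2)) := by
        field_simp
      rwa [h3] at h2
    exact le_of_mul_le_mul_left h1 hαpos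
  -- the product of the derivatives
  have hfpn : ∏ i, ‖fp (a (Fin.last n)) θ i‖ =
      |((a (Fin.last n) : ℤ) : ℝ)| ^ n * ‖(Matrix.vandermonde θ).det‖ ^ 2 := by
    rw [gap_vand]
    have h1 : ∀ i : Fin n, ‖fp (a (Fin.last n)) θ i‖ = |((a (Fin.last n) : ℤ) : ℝ)| *
        ∏ j ∈ Finset.univ.erase i, ‖θ i - θ j‖ := by
      intro i
      unfold fp
      rw [norm_mul, norm_prod, Complex.norm_intCast]
    rw [Finset.prod_congr rfl fun i _ => h1 i, Finset.prod_mul_distrib, Finset.prod_const,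
      Finset.card_univ, Fintype.card_fin]
  have ha1 : 1 ≤ |((a (Fin.last n) : ℤ) : ℝ)| ^ n := by
    apply one_le_pow₀
    have h1 : 1 ≤ |a (Fin.last n)| := Int.one_le_abs hF.roots.lc
    exact_mod_cast h1
  have hVθpos : 0 < ‖(Matrix.vandermonde θ).det‖ ^ 2 := pow_pos (norm_pos_iff.2 hVθ) 2
  rw [hfpn] at hA1
  have hA2 : 1 ≤ (∏ k, |(x k : ℝ)|) * (‖(Matrix.vandermonde s).det‖ ^ 2 * ‖w‖ ^ 2) := by
    have h1 : 1 * ‖(Matrix.vandermonde θ).det‖ ^ 2 ≤ (∏ k, |(x k : ℝ)|) *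
        (‖(Matrix.vandermonde s).det‖ ^ 2 * ‖w‖ ^ 2) * ‖(Matrix.vandermonde θ).det‖ ^ 2 := by
      calc 1 * ‖(Matrix.vandermonde θ).det‖ ^ 2 ≤
          |((a (Fin.last n) : ℤ) : ℝ)| ^ n * ‖(Matrix.vandermonde θ).det‖ ^ 2 :=
            mul_le_mul_of_nonneg_right ha1 hVθpos.le
        _ ≤ _ := hA1
        _ = _ := by ring
    exact le_of_mul_le_mul_right h1 hVθpos
  have hxZ : ∏ k, |(x k : ℝ)| ≤ Z ^ n := by
    calc ∏ k, |(x k : ℝ)| ≤ ∏ _k : Fin n, Z :=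
          Finset.prod_le_prod (fun k _ => abs_nonneg _) fun k _ => hZ k
      _ = Z ^ n := by rw [Finset.prod_const, Finset.card_univ, Fintype.card_fin]
  have hVs2 : ‖(Matrix.vandermonde s).det‖ ^ 2 ≤ ((2 / Y) ^ (n - 1)) ^ n := by
    rw [gap_vand]
    calc ∏ i, ∏ j ∈ Finset.univ.erase i, ‖s i - s j‖ ≤ ∏ _i : Fin n, (2 / Y) ^ (n - 1) := by
          refine Finset.prod_le_prod (fun i _ => Finset.prod_nonneg fun j _ => norm_nonneg _)
            fun i _ => ?_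
          calc ∏ j ∈ Finset.univ.erase i, ‖s i - s j‖ ≤ ∏ _j ∈ Finset.univ.erase i, 2 / Y := by
                refine Finset.prod_le_prod (fun j _ => norm_nonneg _) fun j _ => ?_
                have h1 := norm_sub_le (s i) (s j)
                have h2 := hsn i
                have h3 := hsn j
                have h4 : 2 / Y = 1 / Y + 1 / Y := by ring
                linarith
            _ = (2 / Y) ^ (n - 1) := by
                rw [Finset.prod_const, Finset.card_erase_of_mem (Finset.mem_univ i),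
                  Finset.card_univ, Fintype.card_fin]
      _ = ((2 / Y) ^ (n - 1)) ^ n := by
          rw [Finset.prod_const, Finset.card_univ, Fintype.card_fin]
  have hw3 : ‖w‖ ^ 2 ≤ (c1 ^ 2) ^ n := by
    calc ‖w‖ ^ 2 ≤ c1 ^ 2 := pow_le_pow_left₀ (norm_nonneg _) hw2 2
      _ = (c1 ^ 2) ^ 1 := (pow_one _).symm
      _ ≤ (c1 ^ 2) ^ n := pow_le_pow_right₀ (one_le_pow₀ hc1) (by omega)
  have hA3 : 1 ≤ (Z * ((2 / Y) ^ (n - 1) * c1 ^ 2)) ^ n := by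
    calc (1 : ℝ) ≤ (∏ k, |(x k : ℝ)|) * (‖(Matrix.vandermonde s).det‖ ^ 2 * ‖w‖ ^ 2) := hA2
      _ ≤ Z ^ n * (((2 / Y) ^ (n - 1)) ^ n * (c1 ^ 2) ^ n) := by
          refine mul_le_mul hxZ ?_ (by positivity) (by positivity)
          exact mul_le_mul hVs2 hw3 (by positivity) (by positivity)
      _ = (Z * ((2 / Y) ^ (n - 1) * c1 ^ 2)) ^ n := by
          rw [mul_pow, mul_pow]
  have hA4 : 1 ≤ Z * ((2 / Y) ^ (n - 1) * c1 ^ 2) := by
    by_contra hlt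
    rw [not_le] at hlt
    have h1 : (Z * ((2 / Y) ^ (n - 1) * c1 ^ 2)) ^ n < 1 :=
      pow_lt_one₀ (by positivity) hlt (by omega)
    linarith
  have hYn : 0 < Y ^ (n - 1) := pow_pos hY0 _
  have hA5 : Y ^ (n - 1) ≤ c1 ^ 2 * 2 ^ (n - 1) * Z := by
    have h1 := mul_le_mul_of_nonneg_left hA4 hYn.le
    have h2 : Y ^ (n - 1) * (Z * ((2 / Y) ^ (n - 1) * c1 ^ 2)) = c1 ^ 2 * 2 ^ (n - 1) * Z := by
      rw [div_pow]
      field_simp
    rwa [mul_one, h2] at h1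
  calc Y ^ 2 ≤ Y ^ (n - 1) := pow_le_pow_right₀ hY1 (by omega)
    _ ≤ c1 ^ 2 * 2 ^ (n - 1) * Z := hA5
    _ ≤ c * Z := by
        refine mul_le_mul_of_nonneg_right ?_ hZ0.le
        rw [hc]
        linarith

end Pool.Agent.Helper31.FM
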