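import Pool.Agent.Helper31.FM.Ser

set_option autoImplicit false

/-!
FM-D5 LamBound. Size of `lam_i(X^j)`.

PROOF. For a power series `y` and `τ ≥ 0` let `N(y) = ∑_(l ≤ k) ‖coeff l y‖ τ^l`; `N(yz) ≤ N(y) N(z)`, `‖coeff k y‖ ≤ N(y)/τ^k`. Let
`f1 = fp_i`, `τ = ‖f1‖/(4M)` (so `0 < τ ≤ 1/4`, as `‖f1‖ ≤ M`). `N((θ+t)^j) ≤ (‖θ‖ + τ)^j ≤ M`. `qpol = f1 + g`, `N(g) ≤ ‖f1‖/3`;
`f1 y = 1 - g y` gives `N(y) ≤ 3/(2‖f1‖)`. `wser`: `|cs k m| ≤ 2^(k+1) 8^m` (weight `1/8`), `‖1 - sθ‖ ∈ [3/4, 5/4]`, `‖s‖ ≤ 1`: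
`N(wser) ≤ 6 (5/2)^k`. Multiply; `1 ≤ M`, `1 ≤ M/‖f1‖`.
-/

open Polynomial

namespace Pool.Agent.Helper31.FM

/-- the truncated weighted norm -/
private noncomputable def nrm (k : ℕ) (τ : ℝ) (y : PowerSeries ℂ) : ℝ :=
  ∑ l ∈ Finset.range (k + 1), ‖PowerSeries.coeff l y‖ * τ ^ l

private theorem nrm_nonneg (k : ℕ) {τ : ℝ} (hτ : 0 ≤ τ) (y : PowerSeries ℂ) : 0 ≤ nrm k τ y :=
  Finset.sum_nonneg fun l _ => mul_nonneg (norm_nonneg _) (pow_nonneg hτ l)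

private theorem nrm_add (k : ℕ) {τ : ℝ} (hτ : 0 ≤ τ) (y z : PowerSeries ℂ) :
    nrm k τ (y + z) ≤ nrm k τ y + nrm k τ z := by
  unfold nrm
  rw [← Finset.sum_add_distrib]
  refine Finset.sum_le_sum fun l _ => ?_
  rw [← add_mul, map_add]
  exact mul_le_mul_of_nonneg_right (norm_add_le _ _) (pow_nonneg hτ l)

private theorem nrm_neg (k : ℕ) (τ : ℝ) (y : PowerSeries ℂ) : nrm k τ (-y) = nrm k τ y := by
  unfold nrm
  refine Finset.sum_congr rfl fun l _ => ?_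
  rw [map_neg, norm_neg]

private theorem nrm_mul (k : ℕ) {τ : ℝ} (hτ : 0 ≤ τ) (y z : PowerSeries ℂ) :
    nrm k τ (y * z) ≤ nrm k τ y * nrm k τ z := by
  unfold nrm
  have h1 : ∀ l, ‖PowerSeries.coeff l (y * z)‖ * τ ^ l ≤
      ∑ m ∈ Finset.range (l + 1), (‖PowerSeries.coeff m y‖ * τ ^ m) *
        (‖PowerSeries.coeff (l - m) z‖ * τ ^ (l - m)) := by
    intro l
    rw [PowerSeries.coeff_mul, Finset.Nat.sum_antidiagonal_eq_sum_range_succ
      (fun a b => PowerSeries.coeff a y * PowerSeries.coeff b z) l]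
    refine (mul_le_mul_of_nonneg_right (norm_sum_le _ _) (pow_nonneg hτ l)).trans ?_
    rw [Finset.sum_mul]
    refine Finset.sum_le_sum fun m hm => ?_
    have hml : m ≤ l := Nat.lt_succ_iff.mp (Finset.mem_range.mp hm)
    have e : τ ^ l = τ ^ m * τ ^ (l - m) := by rw [← pow_add]; congr 1; omega
    rw [norm_mul, e]
    apply le_of_eq; ring
  refine (Finset.sum_le_sum fun l _ => h1 l).trans ?_
  rw [Finset.sum_range_diag_flip (k + 1) (fun a b => (‖PowerSeries.coeff a y‖ * τ ^ a) *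
    (‖PowerSeries.coeff b z‖ * τ ^ b)), Finset.sum_mul]
  refine Finset.sum_le_sum fun m hm => ?_
  rw [← Finset.mul_sum]
  refine mul_le_mul_of_nonneg_left ?_ (mul_nonneg (norm_nonneg _) (pow_nonneg hτ m))
  refine Finset.sum_le_sum_of_subset_of_nonneg ?_ fun l _ _ =>
    mul_nonneg (norm_nonneg _) (pow_nonneg hτ l)
  intro x hx
  rw [Finset.mem_range] at hx ⊢
  omega

private theorem nrm_C (k : ℕ) (τ : ℝ) (c : ℂ) : nrm k τ (PowerSeries.C c) = ‖c‖ := by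
  unfold nrm
  rw [Finset.sum_eq_single 0]
  · simp
  · intro l _ hl
    rw [PowerSeries.coeff_C, if_neg hl]; simp
  · intro h; exact absurd (Finset.mem_range.mpr (Nat.succ_pos k)) h

private theorem nrm_one (k : ℕ) (τ : ℝ) : nrm k τ 1 = 1 := by
  have := nrm_C k τ 1
  simpa using this

private theorem nrm_X (k : ℕ) {τ : ℝ} (hτ : 0 ≤ τ) : nrm k τ PowerSeries.X ≤ τ := by
  unfold nrm
  have h : ∀ l ∈ Finset.range (k + 1), ‖PowerSeries.coeff l (PowerSeries.X : PowerSeries ℂ)‖ * τ ^ l =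
      if l = 1 then τ else 0 := by
    intro l _
    rw [PowerSeries.coeff_X]
    by_cases hl : l = 1
    · simp [hl]
    · simp [hl]
  rw [Finset.sum_congr rfl h, Finset.sum_ite_eq' (Finset.range (k + 1)) 1 (fun _ => τ)]
  split_ifs
  · exact le_refl _
  · exact hτ

private theorem nrm_pow (k : ℕ) {τ : ℝ} (hτ : 0 ≤ τ) (y : PowerSeries ℂ) (r : ℕ) :
    nrm k τ (y ^ r) ≤ nrm k τ y ^ r := by
  induction r with
  | zero => simp [nrm_one]
  | succ r ih =>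
    rw [pow_succ, pow_succ]
    exact (nrm_mul k hτ _ _).trans (mul_le_mul_of_nonneg_right ih (nrm_nonneg k hτ y))

private theorem coeff_le (k : ℕ) {τ : ℝ} (hτ : 0 ≤ τ) (y : PowerSeries ℂ) :
    ‖PowerSeries.coeff k y‖ * τ ^ k ≤ nrm k τ y := by
  unfold nrm
  exact Finset.single_le_sum (f := fun l => ‖PowerSeries.coeff l y‖ * τ ^ l)
    (fun l _ => mul_nonneg (norm_nonneg _) (pow_nonneg hτ l)) (Finset.mem_range.mpr (Nat.lt_succ_self k))

private theorem geo (k : ℕ) {q : ℝ} (h0 : 0 ≤ q) (h1 : q < 1) :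
    ∑ l ∈ Finset.range (k + 1), q ^ l ≤ (1 - q)⁻¹ := by
  have h := geom_sum_Ico_le_of_lt_one (m := 0) (n := k + 1) h0 h1
  rw [pow_zero, one_div] at h
  rwa [← Nat.Ico_zero_eq_range]

private theorem catalan_le (m : ℕ) : catalan m ≤ 4 ^ m := by
  rw [catalan_eq_centralBinom_div]
  exact (Nat.div_le_self _ _).trans (Nat.centralBinom_le_four_pow m)

private theorem cs_le (k m : ℕ) : ‖(cs k m : ℂ)‖ ≤ 2 ^ (k + 1) * 8 ^ m := by
  have hmap : (cs k m : ℂ) = PowerSeries.coeff m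
      ((1 - PowerSeries.C (4 : ℂ) * PowerSeries.X) ^ k *
        PowerSeries.map (Int.castRingHom ℂ) sqE) := by
    have e : (1 - PowerSeries.C (4 : ℂ) * PowerSeries.X) ^ k * PowerSeries.map (Int.castRingHom ℂ) sqE =
        PowerSeries.map (Int.castRingHom ℂ) ((1 - 4 * PowerSeries.X) ^ k * sqE) := by
      have hC : PowerSeries.C (4 : ℂ) = 4 := map_ofNat (PowerSeries.C : ℂ →+* PowerSeries ℂ) 4
      have hI : PowerSeries.map (Int.castRingHom ℂ) (4 : PowerSeries ℤ) = 4 :=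
        map_ofNat (PowerSeries.map (Int.castRingHom ℂ)) 4
      rw [map_mul, map_pow, map_sub, map_one, map_mul, PowerSeries.map_X, hI, hC]
    rw [e, PowerSeries.coeff_map]
    rfl
  have h := coeff_le m (τ := 1 / 8) (by norm_num)
    ((1 - PowerSeries.C (4 : ℂ) * PowerSeries.X) ^ k * PowerSeries.map (Int.castRingHom ℂ) sqE)
  rw [← hmap] at h
  have h8 : (0 : ℝ) ≤ 1 / 8 := by norm_num
  have hlin : nrm m (1 / 8) (1 - PowerSeries.C (4 : ℂ) * PowerSeries.X) ≤ 2 := by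
    rw [sub_eq_add_neg]
    refine (nrm_add m h8 _ _).trans ?_
    rw [nrm_neg, nrm_one]
    have h1 := nrm_mul m h8 (PowerSeries.C (4 : ℂ)) PowerSeries.X
    have h2 := nrm_X m h8
    rw [nrm_C] at h1
    have h3 : ‖(4 : ℂ)‖ = 4 := by norm_num
    rw [h3] at h1
    linarith
  have hsq : nrm m (1 / 8) (PowerSeries.map (Int.castRingHom ℂ) sqE) ≤ 2 := by
    have hl : ∀ l, ‖PowerSeries.coeff l (PowerSeries.map (Int.castRingHom ℂ) sqE)‖ * (1 / 8 : ℝ) ^ l ≤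
        (1 / 2) ^ l := by
      intro l
      rw [PowerSeries.coeff_map, sqE, PowerSeries.coeff_mk]
      by_cases h0 : l = 0
      · subst h0; simp
      · rw [if_neg h0]
        obtain ⟨r, rfl⟩ : ∃ r, l = r + 1 := ⟨l - 1, by omega⟩
        have hc : ((catalan r : ℕ) : ℝ) ≤ 4 ^ r := by exact_mod_cast catalan_le r
        have e1 : ‖(Int.castRingHom ℂ) (-2 * (catalan (r + 1 - 1) : ℤ))‖ = 2 * (catalan r : ℝ) := by
          rw [Nat.add_sub_cancel]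
          simp
        rw [e1]
        calc 2 * (catalan r : ℝ) * (1 / 8) ^ (r + 1) ≤ 2 * 4 ^ r * (1 / 8) ^ (r + 1) := by
              gcongr
          _ = (1 / 4) * (4 * (1 / 8)) ^ r := by rw [mul_pow, pow_succ]; ring
          _ ≤ (1 / 2) ^ (r + 1) := by
              rw [pow_succ]
              have : (4 * (1 / 8) : ℝ) = 1 / 2 := by norm_num
              rw [this]
              have : (0 : ℝ) ≤ (1 / 2) ^ r := by positivity
              linarith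
    unfold nrm
    refine (Finset.sum_le_sum fun l _ => hl l).trans ?_
    refine (geo m (q := 1 / 2) (by norm_num) (by norm_num)).trans ?_
    norm_num
  have hprod : nrm m (1 / 8) ((1 - PowerSeries.C (4 : ℂ) * PowerSeries.X) ^ k *
      PowerSeries.map (Int.castRingHom ℂ) sqE) ≤ 2 ^ k * 2 := by
    refine (nrm_mul m h8 _ _).trans ?_
    refine mul_le_mul ((nrm_pow m h8 _ k).trans ?_) hsq (nrm_nonneg m h8 _) (by positivity)
    exact pow_le_pow_left₀ (nrm_nonneg m h8 _) hlin k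
  have h3 : ‖(cs k m : ℂ)‖ = ‖(cs k m : ℂ)‖ * (1 / 8) ^ m * 8 ^ m := by
    rw [mul_assoc, ← mul_pow]; norm_num
  rw [h3, pow_succ]
  exact mul_le_mul_of_nonneg_right (h.trans hprod) (by positivity)

private theorem wser_le (k : ℕ) (s θ : ℂ) (τ : ℝ) (h0 : 0 ≤ τ) (h1 : τ ≤ 1 / 4) (hs : ‖s‖ ≤ 1)
    (hst : ‖s * θ‖ ≤ 1 / 4) : nrm k τ (wser k s θ) ≤ 6 * (5 / 2) ^ k := by
  have hup : ‖1 - s * θ‖ ≤ 5 / 4 := by
    refine (norm_sub_le _ _).trans ?_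
    rw [norm_one]; linarith
  have hlo : 3 / 4 ≤ ‖1 - s * θ‖ := by
    have := norm_sub_norm_le (1 : ℂ) (s * θ)
    rw [norm_one] at this
    linarith
  have hpos : 0 < ‖1 - s * θ‖ := by linarith
  have hr : ‖s / (4 * (1 - s * θ))‖ ≤ 1 / 3 := by
    rw [norm_div, norm_mul]
    have h4 : ‖(4 : ℂ)‖ = 4 := by norm_num
    rw [h4, div_le_iff₀ (by positivity)]
    linarith
  have hl : ∀ l, ‖PowerSeries.coeff l (wser k s θ)‖ * τ ^ l ≤ 2 * (5 / 2) ^ k * (2 / 3) ^ l := by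
    intro l
    rw [wser, PowerSeries.coeff_mk, norm_mul, norm_mul, norm_pow, norm_pow]
    calc ‖1 - s * θ‖ ^ k * ‖(cs k l : ℂ)‖ * ‖s / (4 * (1 - s * θ))‖ ^ l * τ ^ l
        ≤ (5 / 4) ^ k * (2 ^ (k + 1) * 8 ^ l) * (1 / 3) ^ l * (1 / 4) ^ l := by
          have hc := cs_le k l
          gcongr
      _ = 2 * ((5 / 4) * 2) ^ k * (8 * (1 / 3) * (1 / 4)) ^ l := by
          rw [mul_pow, mul_pow, mul_pow, pow_succ]; ring
      _ = 2 * (5 / 2) ^ k * (2 / 3) ^ l := by norm_num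
  unfold nrm
  refine (Finset.sum_le_sum fun l _ => hl l).trans ?_
  rw [← Finset.mul_sum]
  have hg := geo k (q := 2 / 3) (by norm_num) (by norm_num)
  have : (1 - 2 / 3 : ℝ)⁻¹ = 3 := by norm_num
  rw [this] at hg
  have hp : (0 : ℝ) ≤ 2 * (5 / 2) ^ k := by positivity
  calc 2 * (5 / 2) ^ k * ∑ l ∈ Finset.range (k + 1), (2 / 3 : ℝ) ^ l ≤ 2 * (5 / 2) ^ k * 3 :=
        mul_le_mul_of_nonneg_left hg hp
    _ = 6 * (5 / 2) ^ k := by ring

private theorem inv_le (k : ℕ) (q : ℂ[X]) (f1 : ℂ) (hf : f1 ≠ 0) (hq : q.coeff 0 = f1) (M : ℝ)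
    (hM : 1 ≤ M) (hb : ∀ r, ‖q.coeff r‖ ≤ M) :
    nrm k (‖f1‖ / (4 * M)) ((q : PowerSeries ℂ)⁻¹) ≤ 3 / (2 * ‖f1‖) := by
  have hn : 0 < ‖f1‖ := norm_pos_iff.mpr hf
  have hM0 : 0 < M := by linarith
  have hfM : ‖f1‖ ≤ M := hq ▸ hb 0
  obtain ⟨τ, hτ⟩ : ∃ τ, τ = ‖f1‖ / (4 * M) := ⟨_, rfl⟩
  rw [← hτ]
  have hτ0 : 0 ≤ τ := by rw [hτ]; positivity
  have hτ1 : τ ≤ 1 / 4 := by
    rw [hτ, div_le_iff₀ (by positivity)]; linarith
  obtain ⟨y, hy⟩ : ∃ y, y = (q : PowerSeries ℂ)⁻¹ := ⟨_, rfl⟩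
  rw [← hy]
  have hc0 : PowerSeries.constantCoeff (q : PowerSeries ℂ) = f1 := by
    rw [← PowerSeries.coeff_zero_eq_constantCoeff_apply, Polynomial.coeff_coe, hq]
  have hqy : (q : PowerSeries ℂ) * y = 1 := by
    rw [hy]
    exact PowerSeries.mul_inv_cancel _ (by rw [hc0]; exact hf)
  obtain ⟨g, hg⟩ : ∃ g : PowerSeries ℂ, g = (q : PowerSeries ℂ) - PowerSeries.C f1 := ⟨_, rfl⟩
  have hgn : nrm k τ g ≤ ‖f1‖ / 3 := by
    have hl : ∀ l, ‖PowerSeries.coeff l g‖ * τ ^ l ≤ if l = 0 then 0 else M * τ ^ l := by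
      intro l
      rw [hg, map_sub, Polynomial.coeff_coe, PowerSeries.coeff_C]
      by_cases h0 : l = 0
      · subst h0; simp [hq]
      · rw [if_neg h0, if_neg h0, sub_zero]
        exact mul_le_mul_of_nonneg_right (hb l) (pow_nonneg hτ0 l)
    unfold nrm
    refine (Finset.sum_le_sum fun l _ => hl l).trans ?_
    rw [Finset.sum_range_succ']
    simp only [Nat.succ_ne_zero, if_false, if_true, add_zero]
    have e : ∑ x ∈ Finset.range k, M * τ ^ (x + 1) = M * τ * ∑ x ∈ Finset.range k, τ ^ x := by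
      rw [Finset.mul_sum]
      exact Finset.sum_congr rfl fun x _ => by rw [pow_succ]; ring
    rw [e]
    have hge : ∑ x ∈ Finset.range k, τ ^ x ≤ 4 / 3 := by
      have h1 : ∑ x ∈ Finset.range k, τ ^ x ≤ ∑ x ∈ Finset.range (k + 1), τ ^ x :=
        Finset.sum_le_sum_of_subset_of_nonneg (Finset.range_subset_range.mpr (Nat.le_succ k))
          fun l _ _ => pow_nonneg hτ0 l
      refine h1.trans ((geo k hτ0 (by linarith)).trans ?_)
      rw [inv_le_comm₀ (by linarith) (by norm_num)]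
      linarith
    have hMτ : M * τ = ‖f1‖ / 4 := by rw [hτ]; field_simp
    rw [hMτ]
    calc ‖f1‖ / 4 * ∑ x ∈ Finset.range k, τ ^ x ≤ ‖f1‖ / 4 * (4 / 3) :=
          mul_le_mul_of_nonneg_left hge (by positivity)
      _ = ‖f1‖ / 3 := by ring
  have hid : PowerSeries.C f1 * y = 1 + -(g * y) := by
    rw [← hqy, hg]; ring
  have hy1 : ‖f1‖ * nrm k τ y ≤ nrm k τ (PowerSeries.C f1 * y) := by
    unfold nrm
    rw [Finset.mul_sum]
    refine Finset.sum_le_sum fun l _ => ?_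
    rw [PowerSeries.coeff_C_mul, norm_mul, mul_assoc]
  have hy2 : nrm k τ (PowerSeries.C f1 * y) ≤ 1 + ‖f1‖ / 3 * nrm k τ y := by
    rw [hid]
    refine (nrm_add k hτ0 _ _).trans ?_
    rw [nrm_neg, nrm_one]
    have h1 := nrm_mul k hτ0 g y
    have h2 := mul_le_mul_of_nonneg_right hgn (nrm_nonneg k hτ0 y)
    linarith
  rw [le_div_iff₀ (by positivity)]
  nlinarith [hy1.trans hy2]

theorem lam_bound (n : ℕ) : ∃ K : ℝ, 1 ≤ K ∧ ∀ (a : ℤ), a ≠ 0 → ∀ (θ : Fin n → ℂ),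
    Function.Injective θ → ∀ (s : ℂ), ‖s‖ ≤ 1 → (∀ i, ‖s * θ i‖ ≤ 1 / 4) → ∀ (M : ℝ), 1 ≤ M →
    ∀ i : Fin n, (∀ r, ‖(qpol a θ i).coeff r‖ ≤ M) → (1 + ‖θ i‖) ^ n ≤ M → ∀ (k j : ℕ), j < n →
    ‖lam a θ s k i (X ^ j)‖ ≤ (K * M / ‖fp a θ i‖) ^ (2 * k + 2) := by
  refine ⟨12, by norm_num, ?_⟩
  intro a ha θ hθ s hs hst M hM i hb hpM k j hj
  obtain ⟨f1, hf1⟩ : ∃ f1, f1 = fp a θ i := ⟨_, rfl⟩
  rw [← hf1]
  have hf : f1 ≠ 0 := by
    rw [hf1, fp]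
    refine mul_ne_zero (Int.cast_ne_zero.mpr ha) (Finset.prod_ne_zero_iff.mpr fun l hl => ?_)
    rw [sub_ne_zero]
    exact fun h => (Finset.ne_of_mem_erase hl) (hθ h).symm
  have hq0 : (qpol a θ i).coeff 0 = f1 := by
    rw [hf1, fp, coeff_zero_eq_eval_zero, qpol, eval_mul, eval_C, eval_prod]
    congr 1
    refine Finset.prod_congr rfl fun l _ => ?_
    simp
  have hn : 0 < ‖f1‖ := norm_pos_iff.mpr hf
  have hM0 : 0 < M := by linarith
  have hfM : ‖f1‖ ≤ M := hq0 ▸ hb 0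
  have hinv := inv_le k (qpol a θ i) f1 hf hq0 M hM hb
  obtain ⟨τ, hτ⟩ : ∃ τ, τ = ‖f1‖ / (4 * M) := ⟨_, rfl⟩
  rw [← hτ] at hinv
  have hτp : 0 < τ := by rw [hτ]; positivity
  have hτ0 : 0 ≤ τ := hτp.le
  have hτ1 : τ ≤ 1 / 4 := by
    rw [hτ, div_le_iff₀ (by positivity)]; linarith
  have hw := wser_le k s (θ i) τ hτ0 hτ1 hs (hst i)
  have hP : nrm k τ ((((X ^ j : ℂ[X]).comp (X + C (θ i)) : ℂ[X]) : PowerSeries ℂ)) ≤ M := by
    have e : ((((X ^ j : ℂ[X]).comp (X + C (θ i)) : ℂ[X]) : PowerSeries ℂ)) =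
        (PowerSeries.X + PowerSeries.C (θ i)) ^ j := by
      rw [pow_comp, X_comp, Polynomial.coe_pow, Polynomial.coe_add, Polynomial.coe_X,
        Polynomial.coe_C]
    rw [e]
    refine (nrm_pow k hτ0 _ j).trans ?_
    have h1 : nrm k τ (PowerSeries.X + PowerSeries.C (θ i)) ≤ 1 + ‖θ i‖ := by
      refine (nrm_add k hτ0 _ _).trans ?_
      rw [nrm_C]
      have := nrm_X k hτ0
      linarith
    refine (pow_le_pow_left₀ (nrm_nonneg k hτ0 _) h1 j).trans ?_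
    refine (pow_le_pow_right₀ ?_ hj.le).trans hpM
    have := norm_nonneg (θ i)
    linarith
  have hall : ‖lam a θ s k i (X ^ j)‖ * τ ^ k ≤
      M * (6 * (5 / 2) ^ k) * (3 / (2 * ‖f1‖)) ^ (k + 1) := by
    rw [lam]
    refine (coeff_le k hτ0 _).trans ?_
    refine (nrm_mul k hτ0 _ _).trans ?_
    refine mul_le_mul ((nrm_mul k hτ0 _ _).trans ?_) ((nrm_pow k hτ0 _ _).trans ?_)
      (nrm_nonneg k hτ0 _) (by positivity)
    · exact mul_le_mul hP hw (nrm_nonneg k hτ0 _) hM0.le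
    · exact pow_le_pow_left₀ (nrm_nonneg k hτ0 _) hinv (k + 1)
  obtain ⟨R, hR⟩ : ∃ R, R = M / ‖f1‖ := ⟨_, rfl⟩
  have hR1 : 1 ≤ R := by rw [hR, le_div_iff₀ hn]; linarith
  have hτR : τ * (4 * R) = 1 := by rw [hτ, hR]; field_simp
  have hfR : 3 / (2 * ‖f1‖) ≤ 3 / 2 * R := by
    rw [hR, div_le_iff₀ (by positivity)]
    have : 3 / 2 * (M / ‖f1‖) * (2 * ‖f1‖) = 3 * M := by field_simp
    rw [this]; linarith
  have hMR : M * (3 / (2 * ‖f1‖)) ^ (k + 1) ≤ (3 / 2) ^ (k + 1) * R ^ (k + 1) := by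
    have e1 : M * (3 / (2 * ‖f1‖)) = 3 / 2 * R := by rw [hR]; field_simp
    rw [pow_succ, ← mul_assoc, mul_comm M, mul_assoc, e1, pow_succ, pow_succ]
    calc (3 / (2 * ‖f1‖)) ^ k * (3 / 2 * R) ≤ (3 / 2 * R) ^ k * (3 / 2 * R) :=
          mul_le_mul_of_nonneg_right (pow_le_pow_left₀ (by positivity) hfR k) (by positivity)
      _ = (3 / 2) ^ k * (3 / 2) * (R ^ k * R) := by rw [mul_pow]; ring
  have hfin : ‖lam a θ s k i (X ^ j)‖ ≤ 6 * (5 / 2) ^ k * ((3 / 2) ^ (k + 1) * R ^ (k + 1)) * (4 * R) ^ k := by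
    have h1 : ‖lam a θ s k i (X ^ j)‖ = ‖lam a θ s k i (X ^ j)‖ * τ ^ k * (4 * R) ^ k := by
      rw [mul_assoc, ← mul_pow, hτR, one_pow, mul_one]
    rw [h1]
    refine mul_le_mul_of_nonneg_right (hall.trans ?_) (by positivity)
    have h2 := mul_le_mul_of_nonneg_left hMR (show (0 : ℝ) ≤ 6 * (5 / 2) ^ k by positivity)
    linarith
  refine hfin.trans ?_
  have e2 : 12 * M / ‖f1‖ = 12 * R := by rw [hR]; ring
  rw [e2]
  have e3 : 6 * (5 / 2) ^ k * ((3 / 2) ^ (k + 1) * R ^ (k + 1)) * (4 * R) ^ k =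
      9 * 15 ^ k * R ^ (2 * k + 1) := by
    have : (15 : ℝ) ^ k = (5 / 2) ^ k * (3 / 2) ^ k * 4 ^ k := by
      rw [← mul_pow, ← mul_pow]; norm_num
    rw [this, mul_pow, pow_succ (3 / 2 : ℝ), show 2 * k + 1 = (k + 1) + k by ring, pow_add]
    ring
  rw [e3, mul_pow]
  have h4 : (9 : ℝ) * 15 ^ k ≤ 12 ^ (2 * k + 2) := by
    rw [show 2 * k + 2 = 2 * (k + 1) by ring, pow_mul, pow_succ]
    have : (15 : ℝ) ^ k ≤ (12 ^ 2) ^ k := pow_le_pow_left₀ (by norm_num) (by norm_num) k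
    have h0 : (0 : ℝ) ≤ 15 ^ k := by positivity
    nlinarith
  have h5 : R ^ (2 * k + 1) ≤ R ^ (2 * k + 2) := pow_le_pow_right₀ hR1 (by omega)
  exact mul_le_mul h4 h5 (by positivity) (by positivity)

end Pool.Agent.Helper31.FM
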