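import Pool.Agent.Helper31.FM.Ser

set_option autoImplicit false

/-!
FM-D2b LamDk. `lam_i` vanishes on `Dk S`; its value on `f^k P`.

PROOF. `q = qpol a θ i` as a power series; `q(0) = fp ≠ 0` (product of nonzero numbers), so `q q⁻¹ = 1`; `f(θ_i + t) = t q(t)` (`fC` is the product over
`univ`, split off `i`), `f'(θ_i + t) = q + t q'`. `lam_Dk`: `G = S(θ_i+t) (1 - sθ_i - s t) w q^(-k)`, `w = wser k s θ_i`;
`(Dk S)(θ_i + t) w q^(-(k+1)) = t G' - k G` (use `wser_ode`; multiply both sides by `q^(k+1)`), and the coefficient of `t^k` in `t G'` is `k G_k`.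
`lam_fk`: `f(θ_i+t)^k = t^k q^k`; `q(0) = fp`, `w(0) = (1-sθ)^k` (`cs k 0 = 1`).
-/

open Polynomial

namespace Pool.Agent.Helper31.FM

theorem lam_Dk {n : ℕ} (a : ℤ) (ha : a ≠ 0) (θ : Fin n → ℂ) (hθ : Function.Injective θ) (s : ℂ)
    (k : ℕ) (i : Fin n) (h : 1 - s * θ i ≠ 0) (S : ℂ[X]) :
    lam a θ s k i (Dk k s (fC a θ) S) = 0 := by
  sorry

theorem lam_fk {n : ℕ} (a : ℤ) (ha : a ≠ 0) (θ : Fin n → ℂ) (hθ : Function.Injective θ) (s : ℂ)
    (k : ℕ) (i : Fin n) (P : ℂ[X]) :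
    lam a θ s k i (fC a θ ^ k * P) = P.eval (θ i) * (1 - s * θ i) ^ k / fp a θ i := by
  sorry

end Pool.Agent.Helper31.FM
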