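import Pool.Agent.Helper31.FM.Ser

set_option autoImplicit false

/-!
FM-D4 LamInt. `4^k x0^k f'(θ_i)^(2k+1) lam_i(X^j)`, `s = 1/x0`, is the value at `θ_i` of one integral polynomial of degree `O(k)`.

PROOF. `f ∈ ℤ[X]` (coefficients `a_i`), `f_r = hasseDeriv r f`, `f_1 = f'`; `f(θ + t) = ∑_(r≥1) f_r(θ) t^r` at a root, so
`qpol = ∑_(r ≥ 0) f_(r+1)(θ) t^r` and `fp = f_1(θ)`. `g = ∑_(r=1)^(n-1) f_(r+1) f_1^(r-1) t^r ∈ ℤ[X][[t]]`, `Γ = (1+g)^(-(k+1)) = ∑ γ_l t^l`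
(`PowerSeries.invOfUnit`; natDegree γ_l ≤ n l by induction). `qpol(f_1 t) = f_1 (1 + g)`, hence the coefficient of `t^l` in `qpol^(-(k+1))` times
`f_1^(l+k+1)` is `γ_l(θ)`. `x0^k wser`: the coefficient of `t^m` is `cs k m 4^(-m) (x0 - θ)^(k-m)` for `m ≤ k`. So
`B = ∑_(m≤k) 4^(k-m) cs k m (x0 - X)^(k-m) ∑_(r ≤ min(j,k-m)) binom(j,r) X^(j-r) γ_(k-m-r) f_1^(m+r)`:
`B(θ_i) = 4^k x0^k f_1^(2k+1) lam_i(X^j)`, natDegree `≤ k + n + n k + n k`. [Checked by computer, n = 4, k ≤ 4.]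
-/

open Polynomial

namespace Pool.Agent.Helper31.FM

theorem lam_int {n : ℕ} (hn : 0 < n) (a : Fin (n + 1) → ℤ) (θ : Fin n → ℂ) (h : Roots a θ)
    (x0 : ℤ) (hx : x0 ≠ 0) (hθ : ∀ i, (x0 : ℂ) ≠ θ i) (k j : ℕ) (hj : j < n) :
    ∃ B : ℤ[X], B.natDegree ≤ 4 * n * (k + 1) ∧ ∀ i, aeval (θ i) B =
      4 ^ k * (x0 : ℂ) ^ k * fp (a (Fin.last n)) θ i ^ (2 * k + 1) *
        lam (a (Fin.last n)) θ (1 / x0) k i (X ^ j) := by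
  sorry

end Pool.Agent.Helper31.FM
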