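import Pool.Agent.Helper31.FM.Defs

set_option autoImplicit false

/-!
FM-C1a RedPow. Reduction of powers of `θ_i` modulo the monic polynomial with the roots `θ_i`, with bounds.

PROOF. `p = ∏ (z - θ_i)` is monic of degree `n`, the coefficient of `z^j` has norm `≤ binom(n,j) R^(n-j)` (induction on the number of factors,
or `Polynomial.coeff_bdd_of_roots_le` / `Multiset.prod_X_sub_C_coeff`); so `θ_i^n = ∑ p_j θ_i^j`, `‖p_j‖ R^j ≤ 2^n R^n`. Put
`E m j = δ_mj` for `m < n` and `E (m+1) j = E m (j-1) + p_j E m (n-1)` (this recursion also holds for `m + 1 < n`: one may define `E 0 = δ_0j` and use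
the recursion everywhere; `n = 0` is trivial). Alternative: `E m j = coeff j (X^m %ₘ p)` and the division algorithm. `m ↦ m+1` multiplies the bound
`max_j ‖E m j‖ R^j` by at most `(1 + 2^n) R`.
-/

open Polynomial Matrix

namespace Pool.Agent.Helper31.FM

theorem red_pow (n : ℕ) (θ : Fin n → ℂ) (R : ℝ) (hR : 0 < R) (h : ∀ i, ‖θ i‖ ≤ R) :
    ∃ E : ℕ → Fin n → ℂ, (∀ i m, θ i ^ m = ∑ j, E m j * θ i ^ (j : ℕ)) ∧
      (∀ m (hm : m < n) (j : Fin n), E m j = if m = (j : ℕ) then 1 else 0) ∧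
      ∀ m j, ‖E m j‖ * R ^ (j : ℕ) ≤ (1 + 2 ^ n) ^ m * R ^ m := by
  sorry

end Pool.Agent.Helper31.FM
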