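import Pool.Agent.Helper31.FM.Contour
import Pool.Agent.Helper31.FM.LamInt
import Pool.Agent.Helper31.FM.LamBound
import Pool.Agent.Helper31.FM.FpLower

set_option autoImplicit false

/-!
FM-D7 Window. Two points of one frame with the same pattern: the larger one is at most a power of the smaller one, if that is `≥ K H^K`.

PROOF. Suppose `|x| > |x0|^K'`. For `k ≥ 4` (to be chosen) and `j < n`: `B_j` from `lam_int`, `Q_j = V^(2k) B_j`,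
`Q_j(θ_i) = 4^k x0^k D^(2k) b_ij`, `b_ij = fp_i lam_i(X^j)` (`aeval V ^(2k) fp^(2k+1) = D^(2k) fp`). `N = 4n(k+1) + 2kK`. `Frame.int`:
`L_j = a^N ∑_i Q_j(θ_i) l_i(u0) l_i(u)/α_i ∈ ℤ`. Same pattern: `l_i(u0) l_i(u)/α_i = ρ0 ρ hs(θ_i/x0) hs(θ_i/x) / fp_i` (`γ_i^2 = α_i/fp_i`, `ε_i^2 = 1`), so
`L_j = a^N 4^k x0^k D^(2k) ρ0 ρ ∑_i lam_i(X^j) hs(θ_i/x0) hs(θ_i/x)`. With `hs(θ_i/x) = 1 + δ_i`, `‖δ_i‖ ≤ ‖θ_i‖/|x|` (`hs_near`):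
`‖L_j‖ ≤ H^N 4^k |x0|^k (K H^K)^(2k) (|x0||x|)^(1/2) (|x0|^n 2^(k+1) (4/|x0|)^(n(k+1)) + 2 n (K M/‖fp‖)^(2k+2) (2H)/|x|)` (`lam_small`, `lam_bound`),
and everything of the form `(C H^C)^(k+1)` is `≤ |x0|^((k+1)/16)` when `|x0| ≥ K H^K` (`K` large depending on `C`). So `‖L_j‖ < 1` if
`|x0|^(9k/4+2) ≤ |x| ≤ |x0|^(15k/4-2)` (`n ≥ 3`); for `k = 5, 6, 7, ...` these intervals cover `[|x0|^14, ∞)`. Then `L_j = 0` for all `j < n`,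
i.e. `∑_i lam_i(X^j) v_i = 0`, `v_i = hs(θ_i/x0) hs(θ_i/x) ≠ 0`, contradiction with `lam_indep` (`s = 1/x0`).
-/

open Polynomial

namespace Pool.Agent.Helper31.FM

theorem window (n : ℕ) (hn : 3 ≤ n) : ∃ K : ℕ, 1 ≤ K ∧ ∀ (H : ℕ), 1 ≤ H →
    ∀ (a : Fin (n + 1) → ℤ) (θ α γ : Fin n → ℂ) (l : Fin n → (Fin n → ℤ) → ℂ) (e : Fin n → Bool),
    (∀ i, |a i| ≤ (H : ℤ)) → Frame a θ α l → Gam a θ α γ →
    ∀ (x0 x : ℤ) (u0 u : Fin n → ℤ), Pat θ l γ e x0 u0 → Pat θ l γ e x u →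
    (K : ℝ) * (H : ℝ) ^ K ≤ |(x0 : ℝ)| → |(x : ℝ)| ≤ |(x0 : ℝ)| ^ K := by
  sorry

end Pool.Agent.Helper31.FM
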